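import Mathlib

/-!
Two finitely supported nonnegative functions on `ℤ` whose convolution is constant on its support:
normalisation and the first fractional index.
-/

namespace Pool.Agent.Lib.MP_997b73_pr

/-- normalised pair: coefficients of two polynomials with constant terms `1`, degrees `m`, `n`,
nonnegative coefficients, and a product with all coefficients `0` or `1` -/
structure Norm (a b : ℤ → ℝ) (m n : ℤ) : Prop where
  m0 : 0 ≤ m
  n0 : 0 ≤ n
  a_nonneg : ∀ i, 0 ≤ a i
  b_nonneg : ∀ i, 0 ≤ b i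
  a0 : a 0 = 1
  b0 : b 0 = 1
  a_neg : ∀ i, i < 0 → a i = 0
  b_neg : ∀ i, i < 0 → b i = 0
  a_big : ∀ i, m < i → a i = 0
  b_big : ∀ i, n < i → b i = 0
  am : a m ≠ 0
  bn : b n ≠ 0
  conv : ∀ k, ∑ i ∈ Finset.Icc 0 m, a i * b (k - i) = 0 ∨ ∑ i ∈ Finset.Icc 0 m, a i * b (k - i) = 1

namespace Norm

variable {a b : ℤ → ℝ} {m n : ℤ}

lemma term_nonneg (h : Norm a b m n) (k i : ℤ) : 0 ≤ a i * b (k - i) :=
  mul_nonneg (h.a_nonneg _) (h.b_nonneg _)

lemma conv_le (h : Norm a b m n) (k : ℤ) : ∑ i ∈ Finset.Icc 0 m, a i * b (k - i) ≤ 1 := by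
  rcases h.conv k with h1 | h1 <;> rw [h1]
  exact zero_le_one

lemma conv_pos (h : Norm a b m n) (k i : ℤ) (hi : a i * b (k - i) ≠ 0) :
    ∑ i ∈ Finset.Icc 0 m, a i * b (k - i) = 1 := by
  rcases h.conv k with h1 | h1
  · exfalso
    rw [Finset.sum_eq_zero_iff_of_nonneg (fun i _ => h.term_nonneg k i)] at h1
    apply hi
    by_cases hmem : i ∈ Finset.Icc 0 m
    · exact h1 i hmem
    · rw [Finset.mem_Icc, not_and_or, not_le, not_le] at hmem
      rcases hmem with h2 | h2
      · rw [h.a_neg i h2, zero_mul]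
      · rw [h.a_big i h2, zero_mul]
  · exact h1

/-- two different representations -/
lemma two_le (h : Norm a b m n) (k i j : ℤ) (hij : i ≠ j) :
    a i * b (k - i) + a j * b (k - j) ≤ 1 := by
  have key : ∀ i, a i * b (k - i) ≠ 0 → i ∈ Finset.Icc 0 m := by
    intro i hi
    by_contra hmem
    apply hi
    rw [Finset.mem_Icc, not_and_or, not_le, not_le] at hmem
    rcases hmem with h2 | h2
    · rw [h.a_neg i h2, zero_mul]
    · rw [h.a_big i h2, zero_mul]
  have hone : ∀ i, a i * b (k - i) ≤ 1 := by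
    intro i
    by_cases h0 : a i * b (k - i) = 0
    · rw [h0]; exact zero_le_one
    · exact (Finset.single_le_sum (f := fun i => a i * b (k - i)) (fun i _ => h.term_nonneg k i)
        (key i h0)).trans (h.conv_le k)
  by_cases hi : a i * b (k - i) = 0
  · rw [hi, zero_add]; exact hone j
  · by_cases hj : a j * b (k - j) = 0
    · rw [hj, add_zero]; exact hone i
    · calc a i * b (k - i) + a j * b (k - j) = ∑ l ∈ {i, j}, a l * b (k - l) := by
            rw [Finset.sum_pair hij]
        _ ≤ ∑ l ∈ Finset.Icc 0 m, a l * b (k - l) := by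
            apply Finset.sum_le_sum_of_subset_of_nonneg
            · intro l hl
              rw [Finset.mem_insert, Finset.mem_singleton] at hl
              rcases hl with rfl | rfl
              · exact key _ hi
              · exact key _ hj
            · intro l _ _
              exact h.term_nonneg k l
        _ ≤ 1 := h.conv_le k

lemma a_le (h : Norm a b m n) (i : ℤ) : a i ≤ 1 := by
  have := h.two_le i i (i - 1 - m - n) (by have := h.m0; have := h.n0; omega)
  rw [sub_self, h.b0, mul_one] at this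
  have h2 := h.term_nonneg i (i - 1 - m - n)
  linarith

lemma b_le (h : Norm a b m n) (j : ℤ) : b j ≤ 1 := by
  have := h.two_le j 0 (-1) (by omega)
  rw [sub_zero, h.a0, one_mul, h.a_neg (-1) (by omega), zero_mul, add_zero] at this
  exact this

lemma am_eq (h : Norm a b m n) : a m = 1 := by
  have h1 : ∑ i ∈ Finset.Icc 0 m, a i * b (m + n - i) = a m * b n := by
    rw [Finset.sum_eq_single m]
    · congr 2; ring
    · intro i hi him
      rw [Finset.mem_Icc] at hi
      rw [h.b_big (m + n - i) (by omega), mul_zero]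
    · intro hm
      exact absurd (Finset.mem_Icc.mpr ⟨h.m0, le_rfl⟩) hm
  have h2 := h.conv_pos (m + n) m (by
    have : m + n - m = n := by ring
    rw [this]; exact mul_ne_zero h.am h.bn)
  rw [h1] at h2
  have h3 := h.a_le m
  have h4 := h.b_le n
  have h5 := h.a_nonneg m
  have h6 := h.b_nonneg n
  nlinarith

lemma bn_eq (h : Norm a b m n) : b n = 1 := by
  have h1 : ∑ i ∈ Finset.Icc 0 m, a i * b (m + n - i) = a m * b n := by
    rw [Finset.sum_eq_single m]
    · congr 2; ring
    · intro i hi him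
      rw [Finset.mem_Icc] at hi
      rw [h.b_big (m + n - i) (by omega), mul_zero]
    · intro hm
      exact absurd (Finset.mem_Icc.mpr ⟨h.m0, le_rfl⟩) hm
  have h2 := h.conv_pos (m + n) m (by
    have : m + n - m = n := by ring
    rw [this]; exact mul_ne_zero h.am h.bn)
  rw [h1, h.am_eq, one_mul] at h2
  exact h2

/-- nothing else represents `m` -/
lemma at_m (h : Norm a b m n) (i : ℤ) (hi : i ≠ m) : a i * b (m - i) = 0 := by
  have := h.two_le m m i hi.symm
  rw [sub_self, h.b0, h.am_eq, one_mul] at this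
  have h2 := h.term_nonneg m i
  linarith

/-- the first index where a coefficient is not `0` or `1` -/
lemma first_fractional (h : Norm a b m n)
    (hne : ¬ ((∀ i, a i = 0 ∨ a i = 1) ∧ ∀ i, b i = 0 ∨ b i = 1)) :
    ∃ t : ℤ, 0 < t ∧ 0 < a t ∧ 0 < b t ∧ a t + b t = 1 ∧ ∀ e, 0 < e → e < t → a e = 0 ∨ b e = 0 := by
  classical
  have hex : ∃ t : ℕ, ¬ ((a t = 0 ∨ a t = 1) ∧ (b t = 0 ∨ b t = 1)) := by
    by_contra hcon
    push Not at hcon
    apply hne
    have key : ∀ i : ℤ, (a i = 0 ∨ a i = 1) ∧ (b i = 0 ∨ b i = 1) := by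
      intro i
      rcases lt_or_ge i 0 with hi | hi
      · exact ⟨Or.inl (h.a_neg i hi), Or.inl (h.b_neg i hi)⟩
      · obtain ⟨k, rfl⟩ := Int.eq_ofNat_of_zero_le hi
        exact hcon k
    exact ⟨fun i => (key i).1, fun i => (key i).2⟩
  obtain ⟨t, ht, hmin⟩ : ∃ t : ℕ, ¬ ((a t = 0 ∨ a t = 1) ∧ (b t = 0 ∨ b t = 1)) ∧
      ∀ s : ℕ, s < t → ((a s = 0 ∨ a s = 1) ∧ (b s = 0 ∨ b s = 1)) := by
    refine ⟨Nat.find hex, Nat.find_spec hex, fun s hs => ?_⟩
    have := Nat.find_min hex hs
    push Not at this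
    exact this
  have ht0 : t ≠ 0 := by
    rintro rfl
    apply ht
    simp only [Nat.cast_zero]
    exact ⟨Or.inr h.a0, Or.inr h.b0⟩
  have htm : (0 : ℤ) < t := by exact_mod_cast Nat.pos_of_ne_zero ht0
  -- the sum at `t`
  have hsum : ∑ i ∈ Finset.Icc 0 m, a i * b (t - i)
      = b t + a t + ∑ i ∈ (Finset.Icc 0 m).filter (fun i : ℤ => 0 < i ∧ i < (t : ℤ)), a i * b (t - i) := by
    have h0mem : (0 : ℤ) ∈ Finset.Icc 0 m := Finset.mem_Icc.mpr ⟨le_rfl, h.m0⟩
    have e1 : ∑ i ∈ Finset.Icc 0 m, a i * b (t - i)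
        = ∑ i ∈ (Finset.Icc 0 m).filter (fun i : ℤ => 0 < i ∧ i < (t : ℤ)), a i * b (t - i)
          + ∑ i ∈ (Finset.Icc 0 m).filter (fun i : ℤ => ¬ (0 < i ∧ i < (t : ℤ))), a i * b (t - i) :=
      (Finset.sum_filter_add_sum_filter_not _ _ _).symm
    rw [e1, add_comm]
    congr 1
    have e2 : ∑ i ∈ (Finset.Icc 0 m).filter (fun i : ℤ => ¬ (0 < i ∧ i < (t : ℤ))), a i * b (t - i)
        = ∑ i ∈ ({0, (t : ℤ)} : Finset ℤ), a i * b (t - i) := by
      have e3 : ∀ i : ℤ, i ≠ 0 → i ≠ t → ¬ (0 < i ∧ i < t) → a i * b (t - i) = 0 := by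
        intro i hi0 hit hi
        rcases lt_or_ge i 0 with h1 | h1
        · rw [h.a_neg i h1, zero_mul]
        · rw [h.b_neg (t - i) (by omega), mul_zero]
      trans ∑ i ∈ (Finset.Icc 0 m).filter (fun i : ℤ => ¬ (0 < i ∧ i < (t : ℤ))) ∪ {0, (t : ℤ)},
        a i * b (t - i)
      · apply Finset.sum_subset Finset.subset_union_left
        intro i hi hi'
        rw [Finset.mem_union] at hi
        have hi2 : i ∈ ({0, (t : ℤ)} : Finset ℤ) := by tauto
        rw [Finset.mem_insert, Finset.mem_singleton] at hi2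
        rcases hi2 with rfl | rfl
        · exfalso; apply hi'
          rw [Finset.mem_filter]
          exact ⟨h0mem, by omega⟩
        · by_cases htm' : (t : ℤ) ≤ m
          · exfalso; apply hi'
            rw [Finset.mem_filter, Finset.mem_Icc]
            exact ⟨⟨htm.le, htm'⟩, by omega⟩
          · rw [h.a_big _ (by omega), zero_mul]
      · symm
        apply Finset.sum_subset Finset.subset_union_right
        intro i hi hi'
        rw [Finset.mem_insert, Finset.mem_singleton, not_or] at hi'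
        rw [Finset.mem_union, Finset.mem_filter, Finset.mem_insert, Finset.mem_singleton] at hi
        have hi3 : ¬ (0 < i ∧ i < t) := by tauto
        exact e3 i hi'.1 hi'.2 hi3
    rw [e2, Finset.sum_pair (by omega)]
    rw [sub_zero, h.a0, one_mul, sub_self, h.b0, mul_one]
  -- the middle part is a natural number
  have hint : ∃ N : ℕ, ∑ i ∈ (Finset.Icc 0 m).filter (fun i : ℤ => 0 < i ∧ i < (t : ℤ)), a i * b (t - i) = N := by
    have key : ∀ F : Finset ℤ, (∀ i ∈ F, 0 < i ∧ i < (t : ℤ)) → ∃ N : ℕ, ∑ i ∈ F, a i * b (t - i) = N := by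
      intro F
      induction F using Finset.induction_on with
      | empty => intro _; exact ⟨0, by simp⟩
      | insert j F hj ih =>
        intro hF
        obtain ⟨N, hN⟩ := ih fun i hi => hF i (Finset.mem_insert_of_mem hi)
        have hj2 := hF j (Finset.mem_insert_self _ _)
        obtain ⟨j', rfl⟩ := Int.eq_ofNat_of_zero_le hj2.1.le
        have hj3 : j' < t := by exact_mod_cast hj2.2
        have h1 := (hmin j' hj3).1
        have h2 := (hmin (t - j') (by have := hj2.1; omega)).2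
        have h3 : ((t - j' : ℕ) : ℤ) = (t : ℤ) - (j' : ℤ) := by push_cast [hj3.le]; ring
        rw [h3] at h2
        rw [Finset.sum_insert hj, hN]
        rcases h1 with h1 | h1 <;> rcases h2 with h2 | h2
        · exact ⟨N, by rw [h1]; simp⟩
        · exact ⟨N, by rw [h1]; simp⟩
        · exact ⟨N, by rw [h2]; simp⟩
        · exact ⟨N + 1, by rw [h1, h2]; push_cast; ring⟩
    exact key _ fun i hi => (Finset.mem_filter.mp hi).2
  obtain ⟨N, hN⟩ := hint
  rw [hN] at hsum
  have ha := h.a_nonneg t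
  have hb := h.b_nonneg t
  have hat := h.a_le t
  have hbt := h.b_le t
  refine ⟨t, htm, ?_⟩
  have hzero : ¬ (a t = 0 ∧ b t = 0) := fun hh => ht ⟨Or.inl hh.1, Or.inl hh.2⟩
  have hNn : (0 : ℝ) ≤ N := Nat.cast_nonneg N
  rcases h.conv t with h1 | h1
  · exfalso
    rw [hsum] at h1
    exact hzero ⟨by linarith, by linarith⟩
  · rw [hsum] at h1
    have hN0 : N = 0 := by
      by_contra hN0
      have : (1 : ℝ) ≤ N := by exact_mod_cast Nat.one_le_iff_ne_zero.mpr hN0
      exact hzero ⟨by linarith, by linarith⟩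
    rw [hN0] at h1
    simp only [Nat.cast_zero, add_zero] at h1
    have hab : a t + b t = 1 := by linarith
    refine ⟨?_, ?_, hab, ?_⟩
    · rcases ha.lt_or_eq with h2 | h2
      · exact h2
      · exact absurd ⟨Or.inl h2.symm, Or.inr (by linarith)⟩ ht
    · rcases hb.lt_or_eq with h2 | h2
      · exact h2
      · exact absurd ⟨Or.inr (by linarith), Or.inl h2.symm⟩ ht
    · intro e he0 het
      obtain ⟨e', rfl⟩ := Int.eq_ofNat_of_zero_le he0.le
      obtain ⟨h2, h3⟩ := hmin e' (by exact_mod_cast het)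
      rcases h2 with h2 | h2
      · exact Or.inl h2
      · rcases h3 with h3 | h3
        · exact Or.inr h3
        · exfalso
          have h4 := h.two_le e' e' 0 (by omega)
          rw [sub_self, h.b0, sub_zero, h.a0, h2, h3] at h4
          norm_num at h4

/-- nothing else represents `n` -/
lemma at_n (h : Norm a b m n) (i : ℤ) (hi : i ≠ 0) : a i * b (n - i) = 0 := by
  have := h.two_le n 0 i hi.symm
  rw [sub_zero, h.a0, h.bn_eq, one_mul] at this
  have h2 := h.term_nonneg n i
  linarith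

/-- the first common element of the two supports decides -/
lemma zero_one_of_crit (h : Norm a b m n)
    (hc : ∀ d, 0 < d → a d ≠ 0 → b d ≠ 0 → (∀ e, 0 < e → e < d → a e = 0 ∨ b e = 0) →
      a (m - d) ≠ 0 ∨ b (n - d) ≠ 0) :
    (∀ i, a i = 0 ∨ a i = 1) ∧ ∀ i, b i = 0 ∨ b i = 1 := by
  by_contra hne
  obtain ⟨t, ht0, hat, hbt, -, hfirst⟩ := h.first_fractional hne
  rcases hc t ht0 hat.ne' hbt.ne' hfirst with h1 | h1
  · have h2 := h.at_m (m - t) (by omega)
    rw [show m - (m - t) = t by ring] at h2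
    exact (mul_ne_zero h1 hbt.ne') h2
  · exact (mul_ne_zero hat.ne' h1) (h.at_n t (by omega))

/-- symmetric support of `a` forces `0/1` coefficients -/
lemma zero_one_of_symm (h : Norm a b m n) (hs : ∀ i, a i ≠ 0 → a (m - i) ≠ 0) :
    (∀ i, a i = 0 ∨ a i = 1) ∧ ∀ i, b i = 0 ∨ b i = 1 :=
  h.zero_one_of_crit fun d _ hd _ _ => Or.inl (hs d hd)

end Norm

/-! ### from probability mass functions to normalised pairs -/

/-- the hypotheses of the problem -/
structure Pair (S T : Finset ℤ) (p q : ℤ → ℝ) : Prop where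
  p_nonneg : ∀ a, 0 ≤ p a
  q_nonneg : ∀ a, 0 ≤ q a
  pS : ∀ a, a ∉ S → p a = 0
  qT : ∀ a, a ∉ T → q a = 0
  p_sum : ∑ a ∈ S, p a = 1
  q_sum : ∑ a ∈ T, q a = 1
  uni : ∀ n m : ℤ, (∑ a ∈ S, p a * q (n - a)) ≠ 0 → (∑ a ∈ S, p a * q (m - a)) ≠ 0 →
    (∑ a ∈ S, p a * q (n - a)) = ∑ a ∈ S, p a * q (m - a)

lemma exists_minmax (S : Finset ℤ) (p : ℤ → ℝ) (pS : ∀ a, a ∉ S → p a = 0) (hp : ∑ a ∈ S, p a = 1) :
    ∃ x y : ℤ, x ≤ y ∧ p x ≠ 0 ∧ p y ≠ 0 ∧ (∀ a, a < x → p a = 0) ∧ ∀ a, y < a → p a = 0 := by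
  classical
  have hne : (S.filter fun a => p a ≠ 0).Nonempty := by
    by_contra hcon
    rw [Finset.not_nonempty_iff_eq_empty, Finset.filter_eq_empty_iff] at hcon
    have : ∑ a ∈ S, p a = 0 := Finset.sum_eq_zero fun a ha => by
      have := hcon ha
      simpa using this
    rw [this] at hp
    exact zero_ne_one hp
  set F := S.filter fun a => p a ≠ 0 with hF
  have hmem : ∀ a, p a ≠ 0 → a ∈ F := fun a ha => by
    rw [hF, Finset.mem_filter]
    exact ⟨by by_contra h; exact ha (pS a h), ha⟩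
  refine ⟨F.min' hne, F.max' hne, F.min'_le _ (F.max'_mem hne), (Finset.mem_filter.mp (F.min'_mem hne)).2,
    (Finset.mem_filter.mp (F.max'_mem hne)).2, fun a ha => ?_, fun a ha => ?_⟩
  · by_contra h
    exact absurd (F.min'_le a (hmem a h)) (not_le.mpr ha)
  · by_contra h
    exact absurd (F.le_max' a (hmem a h)) (not_le.mpr ha)

/-- normalisation with given extreme points of the supports -/
lemma Pair.norm {S T : Finset ℤ} {p q : ℤ → ℝ} (h : Pair S T p q) {x y z w : ℤ}
    (hxy : x ≤ y) (hpx : p x ≠ 0) (hpy : p y ≠ 0) (hx : ∀ a, a < x → p a = 0) (hy : ∀ a, y < a → p a = 0)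
    (hzw : z ≤ w) (hqz : q z ≠ 0) (hqw : q w ≠ 0) (hz : ∀ a, a < z → q a = 0)
    (hw : ∀ a, w < a → q a = 0) :
    Norm (fun i => p (x + i) / p x) (fun i => q (z + i) / q z) (y - x) (w - z) := by
  have hpx0 : 0 < p x := lt_of_le_of_ne (h.p_nonneg x) hpx.symm
  have hqz0 : 0 < q z := lt_of_le_of_ne (h.q_nonneg z) hqz.symm
  have hconv : ∀ k : ℤ, ∑ a ∈ S, p a * q (x + z + k - a)
      = p x * q z * ∑ i ∈ Finset.Icc 0 (y - x), (p (x + i) / p x) * (q (z + (k - i)) / q z) := by
    intro k
    have e1 : ∑ a ∈ S, p a * q (x + z + k - a) = ∑ a ∈ Finset.Icc x y, p a * q (x + z + k - a) := by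
      trans ∑ a ∈ S ∪ Finset.Icc x y, p a * q (x + z + k - a)
      · apply Finset.sum_subset Finset.subset_union_left
        intro a _ ha
        rw [h.pS a ha, zero_mul]
      · symm
        apply Finset.sum_subset Finset.subset_union_right
        intro a _ ha
        rw [Finset.mem_Icc, not_and_or, not_le, not_le] at ha
        rcases ha with ha | ha
        · rw [hx a ha, zero_mul]
        · rw [hy a ha, zero_mul]
    have e2 : ∑ a ∈ Finset.Icc x y, p a * q (x + z + k - a)
        = ∑ i ∈ Finset.Icc 0 (y - x), p (x + i) * q (z + (k - i)) := by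
      apply Finset.sum_bij' (fun a _ => a - x) (fun i _ => x + i)
      · intro a ha
        rw [Finset.mem_Icc] at ha ⊢
        omega
      · intro i hi
        rw [Finset.mem_Icc] at hi ⊢
        omega
      · intro a _; ring
      · intro i _; ring
      · intro a _
        congr 2 <;> ring
    rw [e1, e2, Finset.mul_sum]
    refine Finset.sum_congr rfl fun i _ => ?_
    field_simp
  have h0 : ∑ i ∈ Finset.Icc 0 (y - x), (p (x + i) / p x) * (q (z + (0 - i)) / q z) = 1 := by
    rw [Finset.sum_eq_single 0]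
    · rw [sub_zero, add_zero, add_zero, div_self hpx, div_self hqz, one_mul]
    · intro i hi hi0
      rw [Finset.mem_Icc] at hi
      rw [hz (z + (0 - i)) (by omega), zero_div, mul_zero]
    · intro hm
      exact absurd (Finset.mem_Icc.mpr ⟨le_rfl, by omega⟩) hm
  have hval : ∑ a ∈ S, p a * q (x + z + 0 - a) = p x * q z := by
    rw [hconv 0, h0, mul_one]
  have hpq : p x * q z ≠ 0 := mul_ne_zero hpx hqz
  refine ⟨by omega, by omega, fun i => div_nonneg (h.p_nonneg _) (h.p_nonneg _),
    fun i => div_nonneg (h.q_nonneg _) (h.q_nonneg _), ?_, ?_, ?_, ?_, ?_, ?_, ?_, ?_, ?_⟩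
  · simp only [add_zero]; exact div_self hpx
  · simp only [add_zero]; exact div_self hqz
  · intro i hi; rw [hx (x + i) (by omega), zero_div]
  · intro i hi; rw [hz (z + i) (by omega), zero_div]
  · intro i hi; rw [hy (x + i) (by omega), zero_div]
  · intro i hi; rw [hw (z + i) (by omega), zero_div]
  · rw [show x + (y - x) = y by ring]; exact div_ne_zero hpy hpx
  · rw [show z + (w - z) = w by ring]; exact div_ne_zero hqw hqz
  · intro k
    by_cases hk : ∑ i ∈ Finset.Icc 0 (y - x), (p (x + i) / p x) * (q (z + (k - i)) / q z) = 0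
    · exact Or.inl hk
    · right
      have h1 := h.uni (x + z + k) (x + z + 0) (by rw [hconv k]; exact mul_ne_zero hpq hk)
        (by rw [hval]; exact hpq)
      rw [hval, hconv k] at h1
      have h2 : p x * q z * ∑ i ∈ Finset.Icc 0 (y - x), (p (x + i) / p x) * (q (z + (k - i)) / q z)
          = p x * q z * 1 := by rw [h1, mul_one]
      exact mul_left_cancel₀ hpq h2

lemma const_of_zero_one {p : ℤ → ℝ} {x : ℤ} (hpx : p x ≠ 0)
    (h : ∀ i, p (x + i) / p x = 0 ∨ p (x + i) / p x = 1) :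
    ∀ a a' : ℤ, p a ≠ 0 → p a' ≠ 0 → p a = p a' := by
  have key : ∀ a, p a ≠ 0 → p a = p x := by
    intro a ha
    have h1 := h (a - x)
    rw [show x + (a - x) = a by ring] at h1
    rcases h1 with h1 | h1
    · rw [div_eq_zero_iff] at h1
      tauto
    · rwa [div_eq_one_iff_eq hpx] at h1
  intro a a' ha ha'
  rw [key a ha, key a' ha']

end Pool.Agent.Lib.MP_997b73_pr
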