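import Pool.Agent.Lib.MP_997b73_pr.Real

/-!
Integral factors of a `0/1` polynomial whose first coefficients agree with its last coefficients.
-/

namespace Pool.Agent.Lib.MP_997b73_pr

open Polynomial

/-! ### `mirror` -/

lemma mirror_one' {R : Type*} [Semiring R] : (1 : R[X]).mirror = 1 := by
  rw [← C_1, mirror_C]

lemma mirror_prod' {R ι : Type*} [CommRing R] [IsDomain R] (s : Finset ι) (f : ι → R[X]) :
    (∏ i ∈ s, f i).mirror = ∏ i ∈ s, (f i).mirror := by
  classical
  induction s using Finset.induction_on with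
  | empty => simp [mirror_one']
  | insert i s hi ih => rw [Finset.prod_insert hi, Finset.prod_insert hi, mirror_mul_of_domain, ih]

lemma ntd_zero {R : Type*} [Semiring R] {F : R[X]} (h0 : F.coeff 0 ≠ 0) :
    F.natTrailingDegree = 0 :=
  natTrailingDegree_eq_zero.mpr (Or.inr h0)

lemma mirror_coeff_of {R : Type*} [Semiring R] {F : R[X]} (h0 : F.coeff 0 ≠ 0) (i : ℕ) :
    F.mirror.coeff i = if i ≤ F.natDegree then F.coeff (F.natDegree - i) else 0 := by
  rw [coeff_mirror, ntd_zero h0, add_zero]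
  split_ifs with h
  · rw [revAt_le h]
  · rw [revAt_eq_self_of_lt (by omega)]
    exact coeff_eq_zero_of_natDegree_lt (by omega)

lemma mirror_coeff_zero {R : Type*} [Semiring R] {F : R[X]} (h0 : F.coeff 0 ≠ 0) :
    F.mirror.coeff 0 = F.leadingCoeff := by
  rw [mirror_coeff_of h0, if_pos (Nat.zero_le _), Nat.sub_zero]
  rfl

lemma mirror_map_coeff {R T : Type*} [CommRing R] [CommRing T] [Nontrivial T] {F : R[X]}
    (φ : R →+* T) (hm : F.Monic) (h0 : F.coeff 0 = 1) (i : ℕ) :
    (F.map φ).mirror.coeff i = φ (F.mirror.coeff i) := by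
  have : Nontrivial R := φ.domain_nontrivial
  have h1 : (F.map φ).coeff 0 ≠ 0 := by
    rw [coeff_map, h0, map_one]
    exact one_ne_zero
  have h2 : (F.map φ).natDegree = F.natDegree := hm.natDegree_map φ
  rw [mirror_coeff_of h1, mirror_coeff_of (by rw [h0]; exact one_ne_zero), h2]
  split_ifs
  · rw [coeff_map]
  · rw [map_zero]

/-- lowest coefficient of a product -/
lemma coeff_mul_low {R : Type*} [CommRing R] {H G : R[X]} {q : ℕ} (h : ∀ j < q, H.coeff j = 0) :
    (∀ j < q, (H * G).coeff j = 0) ∧ (H * G).coeff q = H.coeff q * G.coeff 0 := by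
  have hd : X ^ q ∣ H := X_pow_dvd_iff.mpr h
  obtain ⟨u, rfl⟩ := hd
  constructor
  · exact X_pow_dvd_iff.mp ⟨u * G, by ring⟩
  · have e1 : (X ^ q * u * G).coeff q = (u * G).coeff 0 := by
      rw [mul_assoc]
      have := coeff_X_pow_mul (u * G) q 0
      rwa [zero_add] at this
    have e2 : (X ^ q * u).coeff q = u.coeff 0 := by
      have := coeff_X_pow_mul u q 0
      rwa [zero_add] at this
    rw [e1, e2, mul_coeff_zero]

/-! ### switching an integral factor -/

lemma sum_sq_int {A B : ℤ[X]} (hA : A ≠ 0) (hB : B ≠ 0) :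
    ∑ k ∈ (A.mirror * B).support, (A.mirror * B).coeff k ^ 2 =
      ∑ k ∈ (A * B).support, (A * B).coeff k ^ 2 := by
  have hm : A.mirror ≠ 0 := fun h => hA (mirror_eq_zero.mp h)
  have h1 := coeff_mul_mirror (p := A.mirror * B)
  have h2 := coeff_mul_mirror (p := A * B)
  have e1 : (A.mirror * B) * (A.mirror * B).mirror = (A * B) * (A * B).mirror := by
    rw [mirror_mul_of_domain, mirror_mul_of_domain, mirror_mirror]
    ring
  have e2 : (A.mirror * B).natDegree + (A.mirror * B).natTrailingDegree =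
      (A * B).natDegree + (A * B).natTrailingDegree := by
    rw [natDegree_mul hm hB, natDegree_mul hA hB, natTrailingDegree_mul hm hB,
      natTrailingDegree_mul hA hB, mirror_natDegree, mirror_natTrailingDegree]
  rw [e1, e2, h2] at h1
  exact h1.symm

lemma switch {F C : ℤ[X]} (hF : F ≠ 0) (hC : C ≠ 0)
    (h01 : ∀ k, (F * C).coeff k = 0 ∨ (F * C).coeff k = 1) (k : ℕ) :
    (F.mirror * C).coeff k = 0 ∨ (F.mirror * C).coeff k = 1 := by
  have e1 : ∀ D : ℤ[X], D.eval 1 = ∑ k ∈ D.support, D.coeff k := by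
    intro D
    rw [eval_eq_sum, Polynomial.sum]
    simp
  have e2 : ∑ k ∈ (F * C).support, (F * C).coeff k ^ 2 = ∑ k ∈ (F * C).support, (F * C).coeff k := by
    refine Finset.sum_congr rfl fun k _ => ?_
    rcases h01 k with h | h <;> rw [h] <;> norm_num
  have e3 : (F.mirror * C).eval 1 = (F * C).eval 1 := by
    rw [eval_mul, eval_mul, mirror_eval_one]
  have e4 := sum_sq_int hF hC
  rw [e2, ← e1, ← e3, e1] at e4
  have e5 : ∑ k ∈ (F.mirror * C).support,
      ((F.mirror * C).coeff k ^ 2 - (F.mirror * C).coeff k) = 0 := by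
    rw [Finset.sum_sub_distrib, e4, sub_self]
  have h0 : ∀ z : ℤ, 0 ≤ z ^ 2 - z := by
    intro z
    rcases le_or_gt z 0 with h | h
    · nlinarith
    · nlinarith
  rw [Finset.sum_eq_zero_iff_of_nonneg (fun k _ => h0 _)] at e5
  by_cases hk : k ∈ (F.mirror * C).support
  · have h1 := e5 k hk
    have h2 : (F.mirror * C).coeff k * ((F.mirror * C).coeff k - 1) = 0 := by linarith [h1]
    rcases mul_eq_zero.mp h2 with h3 | h3
    · exact Or.inl h3
    · exact Or.inr (by linarith)
  · exact Or.inl (notMem_support_iff.mp hk)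

/-- the first `k` coefficients of `F` and of its mirror image agree -/
def PS {R : Type*} [Semiring R] (k : ℕ) (F : R[X]) : Prop := ∀ i < k, F.mirror.coeff i = F.coeff i

lemma PS.mul {R : Type*} [CommRing R] [IsDomain R] {k : ℕ} {F G : R[X]} (hF : PS k F)
    (hG : PS k G) : PS k (F * G) := by
  intro i hi
  rw [mirror_mul_of_domain, coeff_mul, coeff_mul]
  refine Finset.sum_congr rfl fun x hx => ?_
  rw [Finset.HasAntidiagonal.mem_antidiagonal] at hx
  rw [hF x.1 (by omega), hG x.2 (by omega)]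

lemma PS.neg {R : Type*} [CommRing R] {k : ℕ} {F : R[X]} (hF : PS k F) : PS k (-F) := by
  intro i hi
  rw [mirror_neg, coeff_neg, coeff_neg, hF i hi]

/-- a monic factor of a `0/1` polynomial with symmetric prefix has a symmetric prefix -/
lemma PS_factor {k : ℕ} {F C : ℤ[X]} (h01 : ∀ i, (F * C).coeff i = 0 ∨ (F * C).coeff i = 1)
    (h0 : (F * C).coeff 0 = 1) (hm : (F * C).Monic) (hF : F.Monic) (hs : PS k (F * C)) :
    PS k F ∧ F.coeff 0 = 1 := by
  have hF0 : F ≠ 0 := hF.ne_zero
  have hC0 : C ≠ 0 := by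
    rintro rfl
    rw [mul_zero] at h0
    simp at h0
  have hC : C.Monic := hF.of_mul_monic_left hm
  have h1 : F.coeff 0 * C.coeff 0 = 1 := by rw [← mul_coeff_zero, h0]
  have hFc : F.coeff 0 ≠ 0 := left_ne_zero_of_mul (by rw [h1]; exact one_ne_zero)
  have hCc : C.coeff 0 ≠ 0 := right_ne_zero_of_mul (by rw [h1]; exact one_ne_zero)
  have hD := switch hF0 hC0 h01
  have hD0 : (F.mirror * C).coeff 0 = C.coeff 0 := by
    rw [mul_coeff_zero, mirror_coeff_zero hFc, hF.leadingCoeff, one_mul]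
  have hC1 : C.coeff 0 = 1 := by
    have := hD 0
    rw [hD0] at this
    exact this.resolve_left hCc
  have hF1 : F.coeff 0 = 1 := by
    rw [hC1, mul_one] at h1
    exact h1
  refine ⟨?_, hF1⟩
  -- the other switching
  have hE : ∀ i, (F * C.mirror).coeff i = 0 ∨ (F * C.mirror).coeff i = 1 := by
    intro i
    have h2 := switch hC0 hF0 (by rw [mul_comm]; exact h01) i
    rw [mul_comm] at h2
    exact h2
  by_contra hcon
  unfold PS at hcon
  push Not at hcon
  obtain ⟨q, ⟨hqk, hq⟩, hmin⟩ : ∃ q, (q < k ∧ F.mirror.coeff q ≠ F.coeff q) ∧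
      ∀ j < q, ¬ (j < k ∧ F.mirror.coeff j ≠ F.coeff j) := by
    classical
    exact ⟨Nat.find hcon, Nat.find_spec hcon, fun j hj => Nat.find_min hcon hj⟩
  have hlow : ∀ j < q, (F.mirror - F).coeff j = 0 := by
    intro j hj
    have := hmin j hj
    push Not at this
    rw [coeff_sub, this (by omega), sub_self]
  have k1 := (coeff_mul_low (G := C) hlow).2
  have k2 := (coeff_mul_low (G := C.mirror) hlow).2
  rw [hC1, mul_one, sub_mul, coeff_sub] at k1
  rw [mirror_coeff_zero hCc, hC.leadingCoeff, mul_one, sub_mul, coeff_sub] at k2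
  rw [coeff_sub] at k1 k2
  have k3 : (F.mirror * C.mirror).coeff q = (F * C).coeff q := by
    rw [← mirror_mul_of_domain]
    exact hs q hqk
  rw [k3] at k2
  have m1 := h01 q
  have m2 := hD q
  have m3 := hE q
  apply hq
  rcases m1 with m1 | m1 <;> rcases m2 with m2 | m2 <;> rcases m3 with m3 | m3 <;>
    rw [m1, m2] at k1 <;> rw [m1, m3] at k2 <;> linarith

/-- the same for the divisors of powers -/
lemma PS_of_dvd_pow {k d : ℕ} {S : ℤ[X]} (h01 : ∀ i, S.coeff i = 0 ∨ S.coeff i = 1)
    (h0 : S.coeff 0 = 1) (hm : S.Monic) (hs : PS k S) (Q : ℤ[X]) (hQ : Q ∣ S ^ d) : PS k Q := by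
  induction Q using WfDvdMonoid.induction_on_irreducible with
  | zero =>
    exfalso
    rw [zero_dvd_iff] at hQ
    exact pow_ne_zero d hm.ne_zero hQ
  | unit u hu =>
    rcases Polynomial.isUnit_iff.mp hu with ⟨r, hr, rfl⟩
    intro i _
    rw [mirror_C]
  | mul P Q hP hQ0 ih =>
    have h1 := ih (dvd_trans (dvd_mul_left _ _) hQ)
    have h2 : Q ∣ S ^ d := dvd_trans (dvd_mul_right _ _) hQ
    obtain ⟨C, rfl⟩ := hQ0.prime.dvd_of_dvd_pow h2
    have h3 : Q.leadingCoeff * C.leadingCoeff = 1 := by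
      rw [← leadingCoeff_mul]
      exact hm
    refine PS.mul ?_ h1
    rcases Int.isUnit_iff.mp (IsUnit.of_mul_eq_one _ h3) with h4 | h4
    · exact (PS_factor h01 h0 hm h4 hs).1
    · have e : Q * C = -Q * -C := by ring
      rw [e] at h01 h0 hm hs
      have h5 : (-Q).Monic := by
        rw [Monic, leadingCoeff_neg, h4]
        norm_num
      have h6 := (PS_factor h01 h0 hm h5 hs).1.neg
      rwa [neg_neg] at h6

/-! ### products over the embeddings -/

lemma prod_coeff_aux {R ι : Type*} [CommRing R] (q : ℕ) (s : Finset ι) (f g : ι → R[X])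
    (hf : ∀ i, (f i).coeff 0 = 1) (hg : ∀ i, (g i).coeff 0 = 1)
    (hlow : ∀ i, ∀ j < q, (g i).coeff j = (f i).coeff j) :
    (∏ i ∈ s, f i).coeff 0 = 1 ∧ (∏ i ∈ s, g i).coeff 0 = 1 ∧
    (∀ j < q, (∏ i ∈ s, g i).coeff j = (∏ i ∈ s, f i).coeff j) ∧
    (∏ i ∈ s, g i).coeff q - (∏ i ∈ s, f i).coeff q = ∑ i ∈ s, ((g i).coeff q - (f i).coeff q) := by
  classical
  induction s using Finset.induction_on with
  | empty => simp
  | insert i s hi ih =>
    obtain ⟨h1, h2, h3, h4⟩ := ih
    rw [Finset.prod_insert hi, Finset.prod_insert hi, Finset.sum_insert hi]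
    refine ⟨by rw [mul_coeff_zero, hf, h1, one_mul], by rw [mul_coeff_zero, hg, h2, one_mul], ?_⟩
    have e : g i * (∏ i ∈ s, g i) - f i * (∏ i ∈ s, f i) =
        (g i - f i) * (∏ i ∈ s, g i) + (∏ i ∈ s, g i - ∏ i ∈ s, f i) * f i := by ring
    have l1 := coeff_mul_low (H := g i - f i) (G := ∏ i ∈ s, g i) (q := q) (by
      intro j hj
      rw [coeff_sub, hlow i j hj, sub_self])
    have l2 := coeff_mul_low (H := ∏ i ∈ s, g i - ∏ i ∈ s, f i) (G := f i) (q := q) (by
      intro j hj
      rw [coeff_sub, h3 j hj, sub_self])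
    constructor
    · intro j hj
      rw [← sub_eq_zero, ← coeff_sub, e, coeff_add, l1.1 j hj, l2.1 j hj, add_zero]
    · rw [← coeff_sub, e, coeff_add, l1.2, l2.2, h2, hf, mul_one, mul_one, coeff_sub, coeff_sub, h4]

section galois

variable {K : Type*} [Field K] [Algebra ℚ K] [FiniteDimensional ℚ K]
  (W : Type*) [Field W] [Algebra ℚ W] [IsAlgClosure ℚ W]

noncomputable instance : Fintype (K →ₐ[ℚ] W) := Fintype.ofFinite _

/-- the norm of a polynomial -/
noncomputable def nrm (A : K[X]) : W[X] :=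
  ∏ φ : K →ₐ[ℚ] W, A.map (φ : K →+* W)

lemma nrm_rat (A : K[X]) :
    ∃ F : ℚ[X], F.map (algebraMap ℚ W) = nrm W A := by
  have hfix : ∀ σ : W ≃ₐ[ℚ] W,
      (nrm W A).map (σ : W →+* W) = nrm W A := by
    intro σ
    unfold nrm
    rw [Polynomial.map_prod]
    refine Fintype.prod_equiv (AlgEquiv.refl.arrowCongr σ) _ _ fun φ => ?_
    rw [Polynomial.map_map]
    rfl
  have : CharZero W := algebraRat.charZero W
  have : IsGalois ℚ W := IsAlgClosure.isGalois ℚ W
  have h1 : nrm W A ∈ lifts (algebraMap ℚ W) := by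
    rw [lifts_iff_coeff_lifts]
    intro i
    rw [InfiniteGalois.mem_range_algebraMap_iff_fixed]
    intro σ
    have h2 := congrArg (fun P => P.coeff i) (hfix σ)
    simp only [coeff_map] at h2
    exact h2
  rw [mem_lifts] at h1
  exact h1

lemma nrm_PS {A B : K[X]} (hA : A.Monic) (hA0 : A.coeff 0 = 1) {S : ℤ[X]}
    (hAB : A * B = S.map (algebraMap ℤ K)) (h01 : ∀ i, S.coeff i = 0 ∨ S.coeff i = 1)
    (h0 : S.coeff 0 = 1) (hm : S.Monic) {k : ℕ} (hs : PS k S) : PS k (nrm W A) := by
  classical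
  have : CharZero W := algebraRat.charZero W
  have : CharZero K := algebraRat.charZero K
  set d := Fintype.card (K →ₐ[ℚ] W) with hd
  obtain ⟨F, hF⟩ := nrm_rat W A
  obtain ⟨G, hG⟩ := nrm_rat W B
  have hinj : Function.Injective (algebraMap ℚ W) :=
    (algebraMap ℚ W).injective
  have hprod : nrm W A * nrm W B = (S.map (algebraMap ℤ W)) ^ d := by
    unfold nrm
    rw [← Finset.prod_mul_distrib, hd, ← Finset.card_univ, ← Finset.prod_const]
    refine Finset.prod_congr rfl fun φ _ => ?_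
    rw [← Polynomial.map_mul, hAB, Polynomial.map_map]
    congr 1
    exact RingHom.ext_int _ _
  have hnm : (nrm W A).Monic := monic_prod_of_monic _ _ fun φ _ => hA.map _
  have hn0 : (nrm W A).coeff 0 = 1 := by
    unfold nrm
    rw [coeff_zero_eq_eval_zero, eval_prod]
    refine Finset.prod_eq_one fun φ _ => ?_
    rw [← coeff_zero_eq_eval_zero, coeff_map, hA0, map_one]
  have hFm : F.Monic := monic_of_injective hinj (by rw [hF]; exact hnm)
  have hFG : F ∣ (S ^ d).map (algebraMap ℤ ℚ) := by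
    refine ⟨G, ?_⟩
    apply Polynomial.map_injective _ hinj
    rw [Polynomial.map_mul, hF, hG, hprod, Polynomial.map_map, Polynomial.map_pow]
    congr 2
    exact RingHom.ext_int _ _
  obtain ⟨F₁, hF₁⟩ := IsIntegrallyClosed.eq_map_mul_C_of_dvd ℚ (hm.pow d) hFG
  rw [hFm.leadingCoeff, C_1, mul_one] at hF₁
  have hinjZ : Function.Injective (algebraMap ℤ ℚ) := (algebraMap ℤ ℚ).injective_int
  have hF₁m : F₁.Monic := monic_of_injective hinjZ (by rw [hF₁]; exact hFm)
  have hdvd : F₁ ∣ S ^ d := by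
    rw [← hF₁] at hFG
    exact (Polynomial.map_dvd_map _ hinjZ hF₁m).mp hFG
  have hPS := PS_of_dvd_pow h01 h0 hm hs F₁ hdvd
  have hmap : F₁.map (algebraMap ℤ W) = nrm W A := by
    rw [← hF, ← hF₁, Polynomial.map_map]
    congr 1
    exact RingHom.ext_int _ _
  have hF₁0 : F₁.coeff 0 = 1 := by
    have h1 : algebraMap ℤ W (F₁.coeff 0) = algebraMap ℤ _ 1 := by
      rw [← coeff_map, hmap, hn0, map_one]
    exact (algebraMap ℤ W).injective_int h1
  intro i hi
  rw [← hmap, mirror_map_coeff _ hF₁m hF₁0, coeff_map, hPS i hi]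

/-- the trace of the first difference of a factor and its mirror image vanishes -/
lemma trace_zero {A B : K[X]} (hA : A.Monic) (hA0 : A.coeff 0 = 1) {S : ℤ[X]}
    (hAB : A * B = S.map (algebraMap ℤ K)) (h01 : ∀ i, S.coeff i = 0 ∨ S.coeff i = 1)
    (h0 : S.coeff 0 = 1) (hm : S.Monic) {k : ℕ} (hs : PS k S) {t : ℕ} (htk : t < k)
    (hint : ∀ i < t, ∃ z : ℤ, A.mirror.coeff i - A.coeff i = (z : K)) :
    ∑ φ : K →ₐ[ℚ] W, φ (A.mirror.coeff t - A.coeff t) = 0 := by
  have : CharZero W := algebraRat.charZero W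
  have : CharZero K := algebraRat.charZero K
  have : IsAlgClosed W := IsAlgClosure.isAlgClosed ℚ
  have hnrm := nrm_PS W hA hA0 hAB h01 h0 hm hs
  have hone : ∀ q < k, (∀ j < q, A.mirror.coeff j = A.coeff j) →
      ∑ φ : K →ₐ[ℚ] W, φ (A.mirror.coeff q - A.coeff q) = 0 := by
    intro q hq hlow
    have hgc : ∀ (φ : K →ₐ[ℚ] W) (j : ℕ),
        (A.map (φ : K →+* W)).mirror.coeff j = φ (A.mirror.coeff j) :=
      fun φ j => mirror_map_coeff _ hA hA0 j
    have h1 := (prod_coeff_aux q (Finset.univ : Finset (K →ₐ[ℚ] W))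
      (fun φ => A.map (φ : K →+* W))
      (fun φ => (A.map (φ : K →+* W)).mirror)
      (fun φ => by rw [coeff_map, hA0, map_one])
      (fun φ => by
        rw [hgc, mirror_coeff_zero (by rw [hA0]; exact one_ne_zero), hA.leadingCoeff, map_one])
      (fun φ j hj => by
        rw [hgc, hlow j hj, coeff_map]
        rfl)).2.2.2
    rw [← mirror_prod'] at h1
    have h2 := hnrm q hq
    unfold nrm at h2
    rw [h2, sub_self] at h1
    rw [h1]
    refine Finset.sum_congr rfl fun φ _ => ?_
    rw [hgc, coeff_map, map_sub]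
    rfl
  apply hone t htk
  intro j hj
  induction j using Nat.strong_induction_on with
  | _ j ih =>
    have h1 := hone j (by omega) fun i hi => ih i hi (by omega)
    obtain ⟨z, hz⟩ := hint j hj
    rw [hz] at h1
    simp only [map_intCast, Finset.sum_const, nsmul_eq_mul] at h1
    have hcard : ((Finset.univ : Finset (K →ₐ[ℚ] W)).card :
        W) ≠ 0 := by
      rw [Nat.cast_ne_zero, Finset.card_univ]
      have : Nonempty (K →ₐ[ℚ] W) :=
        ⟨IsAlgClosed.lift⟩
      exact Fintype.card_ne_zero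
    have h2 := (mul_eq_zero.mp h1).resolve_left hcard
    have h3 : z = 0 := by exact_mod_cast h2
    rw [h3, Int.cast_zero, sub_eq_zero] at hz
    exact hz

end galois

section pair

variable {a b : ℤ → ℝ} {M N : ℕ}

lemma mirror_coeffB (h : Norm a b M N) (k : ℕ) : (poly b N).mirror.coeff k = b (N - k) := by
  have h0 : (poly b N).coeff 0 ≠ 0 := by
    rw [poly_coeff h.b_big, Nat.cast_zero, h.b0]
    exact one_ne_zero
  rw [mirror_coeff_of h0, h.natDegB]
  split_ifs with hk
  · rw [poly_coeff h.b_big, Nat.cast_sub hk]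
  · rw [h.b_neg _ (by omega)]

/-- no fractional coefficient below the first asymmetry of the product -/
lemma Norm.prefix_le (h : Norm a b M N) {k : ℕ} (hs : PS k (poly a M * poly b N)) {t : ℕ}
    (ht0 : 0 < t) (hat : 0 < a t) (hbt : 0 < b t) (hab : a t + b t = 1)
    (hint : ∀ i : ℕ, i < t → (a i = 0 ∨ a i = 1) ∧ (b i = 0 ∨ b i = 1) ∧
      (a (M - i) = 0 ∨ a (M - i) = 1) ∧ (b (N - i) = 0 ∨ b (N - i) = 1)) : k ≤ t := by
  classical
  by_contra hkt
  rw [not_le] at hkt
  -- the integral polynomial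
  obtain ⟨R, hR, hR2⟩ := h.exists_int
  have hinjR : Function.Injective (algebraMap ℤ ℝ) := (algebraMap ℤ ℝ).injective_int
  have hRc : ∀ i, ((R.coeff i : ℤ) : ℝ) = (poly a M * poly b N).coeff i := by
    intro i
    rw [← hR2, coeff_map]
    rfl
  have h01 : ∀ i, R.coeff i = 0 ∨ R.coeff i = 1 := by
    intro i
    rcases h.R01 i with h1 | h1
    · left
      have := hRc i
      rw [h1] at this
      exact_mod_cast this
    · right
      have := hRc i
      rw [h1] at this
      exact_mod_cast this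
  have hR0 : R.coeff 0 = 1 := by
    have := hRc 0
    rw [mul_coeff_zero, poly_coeff h.a_big, poly_coeff h.b_big, Nat.cast_zero, h.a0, h.b0,
      mul_one] at this
    exact_mod_cast this
  have hRs : PS k R := by
    intro i hi
    have h1 := hs i hi
    rw [← hR2, mirror_map_coeff _ hR hR0, coeff_map] at h1
    exact hinjR h1
  -- the field
  let G : Finset ℝ := (Finset.range (M + 1)).image (fun i : ℕ => a i) ∪
    (Finset.range (N + 1)).image (fun i : ℕ => b i)
  let K := IntermediateField.adjoin ℚ (G : Set ℝ)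
  have hfd : FiniteDimensional ℚ K := by
    apply IntermediateField.finiteDimensional_adjoin
    intro x hx
    rw [Finset.mem_coe, Finset.mem_union, Finset.mem_image, Finset.mem_image] at hx
    rcases hx with ⟨i, _, rfl⟩ | ⟨i, _, rfl⟩
    · have := h.intA i
      rw [poly_coeff h.a_big] at this
      exact this.tower_top
    · have := h.intB i
      rw [poly_coeff h.b_big] at this
      exact this.tower_top
  have haK : ∀ i : ℕ, a i ∈ K := by
    intro i
    by_cases hi : i ≤ M
    · apply IntermediateField.subset_adjoin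
      rw [Finset.mem_coe, Finset.mem_union, Finset.mem_image]
      exact Or.inl ⟨i, Finset.mem_range.mpr (by omega), rfl⟩
    · rw [h.a_big _ (by omega)]
      exact zero_mem _
  have hbK : ∀ i : ℕ, b i ∈ K := by
    intro i
    by_cases hi : i ≤ N
    · apply IntermediateField.subset_adjoin
      rw [Finset.mem_coe, Finset.mem_union, Finset.mem_image, Finset.mem_image]
      exact Or.inr ⟨i, Finset.mem_range.mpr (by omega), rfl⟩
    · rw [h.b_big _ (by omega)]
      exact zero_mem _
  have hAl : poly a M ∈ lifts (algebraMap K ℝ) := by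
    rw [lifts_iff_coeff_lifts]
    intro i
    rw [poly_coeff h.a_big]
    exact ⟨⟨_, haK i⟩, rfl⟩
  have hBl : poly b N ∈ lifts (algebraMap K ℝ) := by
    rw [lifts_iff_coeff_lifts]
    intro i
    rw [poly_coeff h.b_big]
    exact ⟨⟨_, hbK i⟩, rfl⟩
  rw [mem_lifts] at hAl hBl
  obtain ⟨A, hA⟩ := hAl
  obtain ⟨B, hB⟩ := hBl
  have hinj : Function.Injective (algebraMap K ℝ) := (algebraMap K ℝ).injective
  have hAm : A.Monic := monic_of_injective hinj (by rw [hA]; exact h.monicA)
  have hBm : B.Monic := monic_of_injective hinj (by rw [hB]; exact h.monicB)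
  have hAc : ∀ i : ℕ, algebraMap K ℝ (A.coeff i) = a i := by
    intro i
    rw [← coeff_map, hA, poly_coeff h.a_big]
  have hBc : ∀ i : ℕ, algebraMap K ℝ (B.coeff i) = b i := by
    intro i
    rw [← coeff_map, hB, poly_coeff h.b_big]
  have hA0 : A.coeff 0 = 1 := by
    apply hinj
    rw [hAc, map_one, Nat.cast_zero, h.a0]
  have hB0 : B.coeff 0 = 1 := by
    apply hinj
    rw [hBc, map_one, Nat.cast_zero, h.b0]
  have hAmc : ∀ i : ℕ, algebraMap K ℝ (A.mirror.coeff i) = a (M - i) := by
    intro i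
    rw [← mirror_map_coeff _ hAm hA0, hA, mirror_coeff h]
  have hBmc : ∀ i : ℕ, algebraMap K ℝ (B.mirror.coeff i) = b (N - i) := by
    intro i
    rw [← mirror_map_coeff _ hBm hB0, hB, mirror_coeffB h]
  have hAB : A * B = R.map (algebraMap ℤ K) := by
    apply Polynomial.map_injective _ hinj
    rw [Polynomial.map_mul, hA, hB, Polynomial.map_map, ← hR2]
    congr 1
  have hBA : B * A = R.map (algebraMap ℤ K) := by rw [mul_comm, hAB]
  obtain ⟨W, _, _, _⟩ : ∃ (W : Type) (_ : Field W) (_ : Algebra ℚ W), IsAlgClosure ℚ W :=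
    ⟨AlgebraicClosure ℚ, inferInstance, AlgebraicClosure.instAlgebra ℚ, inferInstance⟩
  have hdiff : ∀ {x y : K}, (algebraMap K ℝ x = 0 ∨ algebraMap K ℝ x = 1) →
      (algebraMap K ℝ y = 0 ∨ algebraMap K ℝ y = 1) → ∃ z : ℤ, x - y = (z : K) := by
    intro x y hx hy
    have hx' : x = 0 ∨ x = 1 := by
      rcases hx with hx | hx
      · left; apply hinj; rw [hx, map_zero]
      · right; apply hinj; rw [hx, map_one]
    have hy' : y = 0 ∨ y = 1 := by
      rcases hy with hy | hy
      · left; apply hinj; rw [hy, map_zero]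
      · right; apply hinj; rw [hy, map_one]
    rcases hx' with rfl | rfl <;> rcases hy' with rfl | rfl
    · exact ⟨0, by simp⟩
    · exact ⟨-1, by simp⟩
    · exact ⟨1, by simp⟩
    · exact ⟨0, by simp⟩
  have t1 := trace_zero W hAm hA0 hAB h01 hR0 hR hRs hkt (by
    intro i hi
    obtain ⟨h1, -, h3, -⟩ := hint i hi
    exact hdiff (by rw [hAmc]; exact h3) (by rw [hAc]; exact h1))
  have t2 := trace_zero W hBm hB0 hBA h01 hR0 hR hRs hkt (by
    intro i hi
    obtain ⟨-, h2, -, h4⟩ := hint i hi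
    exact hdiff (by rw [hBmc]; exact h4) (by rw [hBc]; exact h2))
  have hAt : A.mirror.coeff t = 0 := by
    apply hinj
    rw [hAmc, map_zero]
    have h1 := h.at_m (M - t) (by omega)
    rw [show (M : ℤ) - (M - t) = t by ring] at h1
    exact (mul_eq_zero.mp h1).resolve_right hbt.ne'
  have hBt : B.mirror.coeff t = 0 := by
    apply hinj
    rw [hBmc, map_zero]
    have h1 := h.at_n t (by omega)
    exact (mul_eq_zero.mp h1).resolve_left hat.ne'
  have hsum : A.coeff t + B.coeff t = 1 := by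
    apply hinj
    rw [map_add, hAc, hBc, map_one, hab]
  have t3 : ∑ φ : K →ₐ[ℚ] W, φ ((A.mirror.coeff t - A.coeff t) +
      (B.mirror.coeff t - B.coeff t)) = 0 := by
    simp only [map_add, Finset.sum_add_distrib]
    simp only [map_sub] at t1 t2 ⊢
    rw [t1, t2, add_zero]
  have e : (A.mirror.coeff t - A.coeff t) + (B.mirror.coeff t - B.coeff t) = -1 := by
    rw [hAt, hBt, ← hsum]
    ring
  rw [e] at t3
  simp only [map_neg, map_one, Finset.sum_const, nsmul_eq_mul, Finset.card_univ] at t3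
  have : CharZero W := algebraRat.charZero W
  have : IsAlgClosed W := IsAlgClosure.isAlgClosed ℚ
  have hne : Nonempty (K →ₐ[ℚ] W) := ⟨IsAlgClosed.lift⟩
  have hcard : ((Fintype.card (K →ₐ[ℚ] W) : ℕ) : W) ≠ 0 := by
    rw [Nat.cast_ne_zero]
    exact Fintype.card_ne_zero
  apply hcard
  linear_combination -t3

end pair

/-- at the first index with a fractional coefficient both coefficients are fractional -/
lemma Norm.frac_at {a b : ℤ → ℝ} {m n : ℤ} (h : Norm a b m n) {t : ℕ}
    (hmin : ∀ s : ℕ, s < t → ((a s = 0 ∨ a s = 1) ∧ (b s = 0 ∨ b s = 1)))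
    (ht : ¬ ((a t = 0 ∨ a t = 1) ∧ (b t = 0 ∨ b t = 1))) :
    0 < t ∧ 0 < a t ∧ 0 < b t ∧ a t + b t = 1 := by
  classical
  have ht0 : t ≠ 0 := by
    rintro rfl
    apply ht
    simp only [Nat.cast_zero]
    exact ⟨Or.inr h.a0, Or.inr h.b0⟩
  have htm : (0 : ℤ) < t := by exact_mod_cast Nat.pos_of_ne_zero ht0
  -- the sum at `t`
  have hsum : ∑ i ∈ Finset.Icc 0 m, a i * b (t - i)
      = b t + a t + ∑ i ∈ (Finset.Icc 0 m).filter (fun i : ℤ => 0 < i ∧ i < (t : ℤ)), a i * b (t - i) := by
    have h0mem : (0 : ℤ) ∈ Finset.Icc 0 m := Finset.mem_Icc.mpr ⟨le_rfl, h.m0⟩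
    have e1 : ∑ i ∈ Finset.Icc 0 m, a i * b (t - i)
        = ∑ i ∈ (Finset.Icc 0 m).filter (fun i : ℤ => 0 < i ∧ i < (t : ℤ)), a i * b (t - i)
          + ∑ i ∈ (Finset.Icc 0 m).filter (fun i : ℤ => ¬ (0 < i ∧ i < (t : ℤ))), a i * b (t - i) :=
      (Finset.sum_filter_add_sum_filter_not _ _ _).symm
    rw [e1, add_comm]
    congr 1
    have e2 : ∑ i ∈ (Finset.Icc 0 m).filter (fun i : ℤ => ¬ (0 < i ∧ i < (t : ℤ))), a i * b (t - i)
        = ∑ i ∈ ({0, (t : ℤ)} : Finset ℤ), a i * b (t - i) := by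
      have e3 : ∀ i : ℤ, i ≠ 0 → i ≠ t → ¬ (0 < i ∧ i < t) → a i * b (t - i) = 0 := by
        intro i hi0 hit hi
        rcases lt_or_ge i 0 with h1 | h1
        · rw [h.a_neg i h1, zero_mul]
        · rw [h.b_neg (t - i) (by omega), mul_zero]
      trans ∑ i ∈ (Finset.Icc 0 m).filter (fun i : ℤ => ¬ (0 < i ∧ i < (t : ℤ))) ∪ {0, (t : ℤ)},
        a i * b (t - i)
      · apply Finset.sum_subset Finset.subset_union_left
        intro i hi hi'
        rw [Finset.mem_union] at hi
        have hi2 : i ∈ ({0, (t : ℤ)} : Finset ℤ) := by tauto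
        rw [Finset.mem_insert, Finset.mem_singleton] at hi2
        rcases hi2 with rfl | rfl
        · exfalso; apply hi'
          rw [Finset.mem_filter]
          exact ⟨h0mem, by omega⟩
        · by_cases htm' : (t : ℤ) ≤ m
          · exfalso; apply hi'
            rw [Finset.mem_filter, Finset.mem_Icc]
            exact ⟨⟨htm.le, htm'⟩, by omega⟩
          · rw [h.a_big _ (by omega), zero_mul]
      · symm
        apply Finset.sum_subset Finset.subset_union_right
        intro i hi hi'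
        rw [Finset.mem_insert, Finset.mem_singleton, not_or] at hi'
        rw [Finset.mem_union, Finset.mem_filter, Finset.mem_insert, Finset.mem_singleton] at hi
        have hi3 : ¬ (0 < i ∧ i < t) := by tauto
        exact e3 i hi'.1 hi'.2 hi3
    rw [e2, Finset.sum_pair (by omega)]
    rw [sub_zero, h.a0, one_mul, sub_self, h.b0, mul_one]
  -- the middle part is a natural number
  have hint : ∃ N : ℕ, ∑ i ∈ (Finset.Icc 0 m).filter (fun i : ℤ => 0 < i ∧ i < (t : ℤ)), a i * b (t - i) = N := by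
    have key : ∀ F : Finset ℤ, (∀ i ∈ F, 0 < i ∧ i < (t : ℤ)) → ∃ N : ℕ, ∑ i ∈ F, a i * b (t - i) = N := by
      intro F
      induction F using Finset.induction_on with
      | empty => intro _; exact ⟨0, by simp⟩
      | insert j F hj ih =>
        intro hF
        obtain ⟨N, hN⟩ := ih fun i hi => hF i (Finset.mem_insert_of_mem hi)
        have hj2 := hF j (Finset.mem_insert_self _ _)
        obtain ⟨j', rfl⟩ := Int.eq_ofNat_of_zero_le hj2.1.le
        have hj3 : j' < t := by exact_mod_cast hj2.2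
        have h1 := (hmin j' hj3).1
        have h2 := (hmin (t - j') (by have := hj2.1; omega)).2
        have h3 : ((t - j' : ℕ) : ℤ) = (t : ℤ) - (j' : ℤ) := by push_cast [hj3.le]; ring
        rw [h3] at h2
        rw [Finset.sum_insert hj, hN]
        rcases h1 with h1 | h1 <;> rcases h2 with h2 | h2
        · exact ⟨N, by rw [h1]; simp⟩
        · exact ⟨N, by rw [h1]; simp⟩
        · exact ⟨N, by rw [h2]; simp⟩
        · exact ⟨N + 1, by rw [h1, h2]; push_cast; ring⟩
    exact key _ fun i hi => (Finset.mem_filter.mp hi).2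
  obtain ⟨N, hN⟩ := hint
  rw [hN] at hsum
  have ha := h.a_nonneg t
  have hb := h.b_nonneg t
  have hat := h.a_le t
  have hbt := h.b_le t
  refine ⟨Nat.pos_of_ne_zero ht0, ?_⟩
  have hzero : ¬ (a t = 0 ∧ b t = 0) := fun hh => ht ⟨Or.inl hh.1, Or.inl hh.2⟩
  have hNn : (0 : ℝ) ≤ N := Nat.cast_nonneg N
  rcases h.conv t with h1 | h1
  · exfalso
    rw [hsum] at h1
    exact hzero ⟨by linarith, by linarith⟩
  · rw [hsum] at h1
    have hN0 : N = 0 := by
      by_contra hN0
      have : (1 : ℝ) ≤ N := by exact_mod_cast Nat.one_le_iff_ne_zero.mpr hN0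
      exact hzero ⟨by linarith, by linarith⟩
    rw [hN0] at h1
    simp only [Nat.cast_zero, add_zero] at h1
    have hab : a t + b t = 1 := by linarith
    refine ⟨?_, ?_, hab⟩
    · rcases ha.lt_or_eq with h2 | h2
      · exact h2
      · exact absurd ⟨Or.inl h2.symm, Or.inr (by linarith)⟩ ht
    · rcases hb.lt_or_eq with h2 | h2
      · exact h2
      · exact absurd ⟨Or.inr (by linarith), Or.inl h2.symm⟩ ht

/-- the reversed pair -/
lemma Norm.rev {a b : ℤ → ℝ} {m n : ℤ} (h : Norm a b m n) :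
    Norm (fun i => a (m - i)) (fun i => b (n - i)) m n where
  m0 := h.m0
  n0 := h.n0
  a_nonneg := fun i => h.a_nonneg _
  b_nonneg := fun i => h.b_nonneg _
  a0 := by simpa using h.am_eq
  b0 := by simpa using h.bn_eq
  a_neg := fun i hi => h.a_big _ (by omega)
  b_neg := fun i hi => h.b_big _ (by omega)
  a_big := fun i hi => h.a_neg _ (by omega)
  b_big := fun i hi => h.b_neg _ (by omega)
  am := by simp only [sub_self]; rw [h.a0]; exact one_ne_zero
  bn := by simp only [sub_self]; rw [h.b0]; exact one_ne_zero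
  conv := by
    intro k
    have e : ∑ i ∈ Finset.Icc 0 m, a (m - i) * b (n - (k - i)) =
        ∑ i ∈ Finset.Icc 0 m, a i * b (m + n - k - i) := by
      apply Finset.sum_bij' (fun i _ => m - i) (fun i _ => m - i)
      · intro i hi
        rw [Finset.mem_Icc] at hi ⊢
        omega
      · intro i hi
        rw [Finset.mem_Icc] at hi ⊢
        omega
      · intro i _; ring
      · intro i _; ring
      · intro i _
        congr 2
        ring
    rw [e]
    exact h.conv _

/-- the convolution in terms of the normalised pair -/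
lemma Pair.conv_eq {S T : Finset ℤ} {p q : ℤ → ℝ} (h : Pair S T p q) {x y z : ℤ}
    (hpx : p x ≠ 0) (hx : ∀ a, a < x → p a = 0) (hy : ∀ a, y < a → p a = 0)
    (hqz : q z ≠ 0) (k : ℤ) :
    ∑ a ∈ S, p a * q (x + z + k - a)
      = p x * q z * ∑ i ∈ Finset.Icc 0 (y - x), (p (x + i) / p x) * (q (z + (k - i)) / q z) := by
  have e1 : ∑ a ∈ S, p a * q (x + z + k - a) = ∑ a ∈ Finset.Icc x y, p a * q (x + z + k - a) := by
    trans ∑ a ∈ S ∪ Finset.Icc x y, p a * q (x + z + k - a)
    · apply Finset.sum_subset Finset.subset_union_left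
      intro a _ ha
      rw [h.pS a ha, zero_mul]
    · symm
      apply Finset.sum_subset Finset.subset_union_right
      intro a _ ha
      rw [Finset.mem_Icc, not_and_or, not_le, not_le] at ha
      rcases ha with ha | ha
      · rw [hx a ha, zero_mul]
      · rw [hy a ha, zero_mul]
  have e2 : ∑ a ∈ Finset.Icc x y, p a * q (x + z + k - a)
      = ∑ i ∈ Finset.Icc 0 (y - x), p (x + i) * q (z + (k - i)) := by
    apply Finset.sum_bij' (fun a _ => a - x) (fun i _ => x + i)
    · intro a ha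
      rw [Finset.mem_Icc] at ha ⊢
      omega
    · intro i hi
      rw [Finset.mem_Icc] at hi ⊢
      omega
    · intro a _; ring
    · intro i _; ring
    · intro a _
      congr 2 <;> ring
  rw [e1, e2, Finset.mul_sum]
  refine Finset.sum_congr rfl fun i _ => ?_
  field_simp

section pair2

variable {a b : ℤ → ℝ} {M N : ℕ}

lemma poly_rev (h : Norm a b M N) : poly (fun i => a (M - i)) M = (poly a M).mirror := by
  ext k
  rw [mirror_coeff h, poly_coeff h.rev.a_big]

lemma poly_revB (h : Norm a b M N) : poly (fun i => b (N - i)) N = (poly b N).mirror := by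
  ext k
  rw [mirror_coeffB h, poly_coeff h.rev.b_big]

/-- all coefficients below the first asymmetry of the product are `0` or `1`, from both ends -/
lemma Norm.prefix_zero_one (h : Norm a b M N) {k : ℕ} (hs : PS k (poly a M * poly b N)) :
    ∀ i : ℕ, i < k → (a i = 0 ∨ a i = 1) ∧ (b i = 0 ∨ b i = 1) ∧
      (a (M - i) = 0 ∨ a (M - i) = 1) ∧ (b (N - i) = 0 ∨ b (N - i) = 1) := by
  classical
  by_contra hcon
  rw [not_forall] at hcon
  obtain ⟨t, ⟨htk, ht⟩, hmin⟩ : ∃ t : ℕ, (t < k ∧ ¬ ((a t = 0 ∨ a t = 1) ∧ (b t = 0 ∨ b t = 1) ∧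
      (a (M - t) = 0 ∨ a (M - t) = 1) ∧ (b (N - t) = 0 ∨ b (N - t) = 1))) ∧
      ∀ i < t, (a i = 0 ∨ a i = 1) ∧ (b i = 0 ∨ b i = 1) ∧
      (a (M - i) = 0 ∨ a (M - i) = 1) ∧ (b (N - i) = 0 ∨ b (N - i) = 1) := by
    have hex : ∃ t : ℕ, t < k ∧ ¬ ((a t = 0 ∨ a t = 1) ∧ (b t = 0 ∨ b t = 1) ∧
      (a (M - t) = 0 ∨ a (M - t) = 1) ∧ (b (N - t) = 0 ∨ b (N - t) = 1)) := by
      obtain ⟨t, h1⟩ := hcon
      exact ⟨t, Classical.not_imp.mp h1⟩
    refine ⟨Nat.find hex, Nat.find_spec hex, fun i hi => ?_⟩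
    have h1 := Nat.find_min hex hi
    have h2 := (Nat.find_spec hex).1
    by_contra h3
    exact h1 ⟨by omega, h3⟩
  by_cases hcase : (a t = 0 ∨ a t = 1) ∧ (b t = 0 ∨ b t = 1)
  · -- the reversed pair
    have hr := h.rev
    have hne : ¬ ((a (M - t) = 0 ∨ a (M - t) = 1) ∧ (b (N - t) = 0 ∨ b (N - t) = 1)) :=
      fun h3 => ht ⟨hcase.1, hcase.2, h3.1, h3.2⟩
    obtain ⟨h1, h2, h3, h4⟩ := hr.frac_at (t := t)
      (fun s hs => ⟨(hmin s hs).2.2.1, (hmin s hs).2.2.2⟩) hne
    have hps : PS k (poly (fun i => a (M - i)) M * poly (fun i => b (N - i)) N) := by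
      rw [poly_rev h, poly_revB h, ← mirror_mul_of_domain]
      intro i hi
      rw [mirror_mirror]
      exact (hs i hi).symm
    have h5 := hr.prefix_le hps h1 h2 h3 h4 (by
      intro i hi
      obtain ⟨g1, g2, g3, g4⟩ := hmin i hi
      refine ⟨g3, g4, ?_, ?_⟩
      · show a (M - (M - i)) = 0 ∨ a (M - (M - i)) = 1
        rw [show (M : ℤ) - (M - i) = i by ring]
        exact g1
      · show b (N - (N - i)) = 0 ∨ b (N - (N - i)) = 1
        rw [show (N : ℤ) - (N - i) = i by ring]
        exact g2)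
    omega
  · obtain ⟨h1, h2, h3, h4⟩ := h.frac_at (t := t)
      (fun s hs => ⟨(hmin s hs).1, (hmin s hs).2.1⟩) hcase
    have h5 := h.prefix_le hs h1 h2 h3 h4 hmin
    omega

/-- a product whose outer parts are symmetric has only `0/1` factors -/
lemma Norm.zero_one_of_prefix (h : Norm a b M N) {k : ℕ} (hs : PS k (poly a M * poly b N))
    (hk : M < 2 * k ∨ N < 2 * k) : (∀ i, a i = 0 ∨ a i = 1) ∧ ∀ i, b i = 0 ∨ b i = 1 := by
  by_contra hne
  obtain ⟨t, ht0, hat, hbt, hab, -⟩ := h.first_fractional hne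
  obtain ⟨u, rfl⟩ := Int.eq_ofNat_of_zero_le ht0.le
  have hpre := h.prefix_zero_one hs
  have ha : ¬ (a u = 0 ∨ a u = 1) := by
    rintro (h1 | h1)
    · exact hat.ne' h1
    · linarith
  have hb : ¬ (b u = 0 ∨ b u = 1) := by
    rintro (h1 | h1)
    · exact hbt.ne' h1
    · linarith
  have huk : k ≤ u := by
    by_contra hcon
    exact ha (hpre u (by omega)).1
  have huM : u ≤ M := by
    by_contra hcon
    exact hat.ne' (h.a_big _ (by omega))
  have huN : u ≤ N := by
    by_contra hcon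
    exact hbt.ne' (h.b_big _ (by omega))
  have hM : k ≤ M - u := by
    by_contra hcon
    have h1 := (hpre (M - u) (by omega)).2.2.1
    rw [Nat.cast_sub huM, show (M : ℤ) - (M - u) = u by ring] at h1
    exact ha h1
  have hN : k ≤ N - u := by
    by_contra hcon
    have h1 := (hpre (N - u) (by omega)).2.2.2
    rw [Nat.cast_sub huN, show (N : ℤ) - (N - u) = u by ring] at h1
    exact hb h1
  omega

/-- symmetry of the outer parts of the support of the product -/
lemma Norm.PS_of (h : Norm a b M N) {k : ℕ}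
    (hs : ∀ i : ℕ, i < k → (∑ j ∈ Finset.Icc (0 : ℤ) M, a j * b (i - j) ≠ 0 ↔
      ∑ j ∈ Finset.Icc (0 : ℤ) M, a j * b (M + N - i - j) ≠ 0)) :
    PS k (poly a M * poly b N) := by
  intro i hi
  have h0 : (poly a M * poly b N).coeff 0 ≠ 0 := by
    rw [mul_coeff_zero, poly_coeff h.a_big, poly_coeff h.b_big, Nat.cast_zero, h.a0, h.b0, mul_one]
    exact one_ne_zero
  have hd : (poly a M * poly b N).natDegree = M + N := by
    rw [h.monicA.natDegree_mul h.monicB, h.natDeg, h.natDegB]
  rw [mirror_coeff_of h0, hd]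
  split_ifs with hle
  · have h1 := hs i hi
    have e : ((M + N - i : ℕ) : ℤ) = M + N - i := by push_cast [hle]; ring
    rw [← h.sum_eq, ← e, ← h.sum_eq] at h1
    rcases h.R01 i with h2 | h2 <;> rcases h.R01 (M + N - i) with h3 | h3 <;> rw [h2, h3] at h1 ⊢
    · simp at h1
    · simp at h1
  · symm
    apply coeff_eq_zero_of_natDegree_lt
    omega

end pair2

end Pool.Agent.Lib.MP_997b73_pr
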