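import Pool.Agent.Lib.MP_997b73_pr.Core

/-!
The difference polynomial `A^* B`, totally real coefficients.
-/

namespace Pool.Agent.Lib.MP_997b73_pr

open Polynomial

/-! ### number fields -/

/-- a nonzero algebraic integer all of whose conjugates are real has mean square conjugate `≥ 1` -/
lemma card_le_sum_sq {K : Type*} [Field K] [Algebra ℚ K] [FiniteDimensional ℚ K] (x : K)
    (hx : IsIntegral ℤ x) (hx0 : x ≠ 0) (hreal : ∀ φ : K →ₐ[ℚ] ℂ, (φ x).im = 0) :
    (Fintype.card (K →ₐ[ℚ] ℂ) : ℝ) ≤ ∑ φ : K →ₐ[ℚ] ℂ, (φ x).re ^ 2 := by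
  have hne : ∀ φ : K →ₐ[ℚ] ℂ, 0 < (φ x).re ^ 2 := by
    intro φ
    have h1 : φ x ≠ 0 := by
      intro h0
      exact hx0 ((map_eq_zero φ).mp h0)
    have h2 : (φ x).re ≠ 0 := by
      intro h0
      exact h1 (Complex.ext h0 (hreal φ))
    positivity
  have hprod : 1 ≤ ∏ φ : K →ₐ[ℚ] ℂ, (φ x).re ^ 2 := by
    have h1 := Algebra.norm_eq_prod_embeddings ℚ ℂ x
    have h2 : IsIntegral ℤ (Algebra.norm ℚ x) := Algebra.isIntegral_norm ℚ hx
    obtain ⟨z, hz⟩ := IsIntegrallyClosed.isIntegral_iff.mp h2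
    have hz0 : z ≠ 0 := by
      rintro rfl
      rw [map_zero] at hz
      exact hx0 (Algebra.norm_eq_zero_iff.mp hz.symm)
    have h3 : (∏ φ : K →ₐ[ℚ] ℂ, (φ x).re) = (z : ℝ) := by
      have h4 : ((∏ φ : K →ₐ[ℚ] ℂ, (φ x).re : ℝ) : ℂ) = ((z : ℝ) : ℂ) := by
        rw [Complex.ofReal_prod]
        have h5 : ∀ φ : K →ₐ[ℚ] ℂ, (((φ x).re : ℝ) : ℂ) = φ x := fun φ =>
          Complex.ext (by simp) (by simp [hreal φ])
        rw [Finset.prod_congr rfl fun φ _ => h5 φ, ← h1, ← hz]
        simp
      exact_mod_cast h4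
    rw [Finset.prod_pow, h3]
    have h6 : (1 : ℤ) ≤ z ^ 2 := by
      have := sq_nonneg z
      have h7 : z ^ 2 ≠ 0 := pow_ne_zero 2 hz0
      omega
    exact_mod_cast h6
  have hlog : 0 ≤ ∑ φ : K →ₐ[ℚ] ℂ, Real.log ((φ x).re ^ 2) := by
    rw [← Real.log_prod fun φ _ => (hne φ).ne']
    exact Real.log_nonneg hprod
  have hsum : ∑ φ : K →ₐ[ℚ] ℂ, Real.log ((φ x).re ^ 2) ≤ ∑ φ : K →ₐ[ℚ] ℂ, ((φ x).re ^ 2 - 1) :=
    Finset.sum_le_sum fun φ _ => Real.log_le_sub_one_of_pos (hne φ)
  rw [Finset.sum_sub_distrib] at hsum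
  simp only [Finset.sum_const, Finset.card_univ, nsmul_eq_mul, mul_one] at hsum
  linarith

/-- number of nonzero coefficients of a polynomial with totally real integral coefficients -/
lemma supp_card_le (D : ℝ[X]) (c : ℕ) (K : IntermediateField ℚ ℝ) [FiniteDimensional ℚ K]
    (hK : ∀ k, D.coeff k ∈ K) (hint : ∀ k, IsIntegral ℤ (D.coeff k))
    (hreal : ∀ (φ : K →ₐ[ℚ] ℂ) (x : K), (φ x).im = 0)
    (hs : ∑ k ∈ D.support, D.coeff k ^ 2 = c) : D.support.card ≤ c := by
  classical
  let d : ℕ → K := fun k => ⟨D.coeff k, hK k⟩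
  have hsum : ∑ k ∈ D.support, d k ^ 2 = (c : K) := by
    apply Subtype.coe_injective
    push_cast
    exact hs
  have hφ : ∀ φ : K →ₐ[ℚ] ℂ, ∑ k ∈ D.support, (φ (d k)).re ^ 2 = c := by
    intro φ
    have h1 := congrArg (fun y => (φ y).re) hsum
    simp only [map_sum, map_pow, map_natCast, Complex.natCast_re, Complex.re_sum] at h1
    rw [← h1]
    refine Finset.sum_congr rfl fun k _ => ?_
    rw [sq, sq, Complex.mul_re, hreal φ (d k)]
    ring
  have hk : ∀ k ∈ D.support, (Fintype.card (K →ₐ[ℚ] ℂ) : ℝ) ≤ ∑ φ : K →ₐ[ℚ] ℂ, (φ (d k)).re ^ 2 := by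
    intro k hk
    apply card_le_sum_sq
    · exact (isIntegral_algebraMap_iff (algebraMap K ℝ).injective).mp (hint k)
    · intro h0
      exact (mem_support_iff.mp hk) (congrArg Subtype.val h0)
    · exact fun φ => hreal φ _
  have h1 := Finset.sum_le_sum hk
  rw [Finset.sum_comm, Finset.sum_congr rfl fun φ _ => hφ φ] at h1
  simp only [Finset.sum_const, nsmul_eq_mul, Finset.card_univ] at h1
  have hpos : (0 : ℝ) < Fintype.card (K →ₐ[ℚ] ℂ) := by
    have : Nonempty (K →ₐ[ℚ] ℂ) := ⟨(Complex.ofRealAm.restrictScalars ℚ).comp K.val⟩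
    exact_mod_cast Fintype.card_pos
  rw [mul_comm] at h1
  have h2 := le_of_mul_le_mul_left h1 hpos
  exact_mod_cast h2

/-! ### the difference polynomial -/

lemma zero_one_of_supp {D R : ℝ[X]} (h1 : D.eval 1 = R.eval 1)
    (h2 : ∑ k ∈ D.support, D.coeff k ^ 2 = ∑ k ∈ R.support, R.coeff k ^ 2)
    (hR : ∀ k, R.coeff k = 0 ∨ R.coeff k = 1) (hc : D.support.card ≤ R.support.card) :
    ∀ k, D.coeff k = 0 ∨ D.coeff k = 1 := by
  have hR1 : ∀ k ∈ R.support, R.coeff k = 1 := fun k hk =>
    (hR k).resolve_left (mem_support_iff.mp hk)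
  have e1 : R.eval 1 = R.support.card := by
    rw [eval_eq_sum, Polynomial.sum]
    simp only [one_pow, mul_one]
    rw [Finset.sum_congr rfl hR1]
    simp
  have e2 : ∑ k ∈ R.support, R.coeff k ^ 2 = R.support.card := by
    rw [Finset.sum_congr rfl fun k hk => by rw [hR1 k hk]]
    simp
  have e3 : D.eval 1 = ∑ k ∈ D.support, D.coeff k := by
    rw [eval_eq_sum, Polynomial.sum]
    simp
  have e4 : ∑ k ∈ D.support, (D.coeff k - 1) ^ 2 ≤ 0 := by
    have : ∑ k ∈ D.support, (D.coeff k - 1) ^ 2 =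
        ∑ k ∈ D.support, D.coeff k ^ 2 - 2 * ∑ k ∈ D.support, D.coeff k + D.support.card := by
      rw [Finset.mul_sum, ← Finset.sum_sub_distrib]
      have e5 : (D.support.card : ℝ) = ∑ k ∈ D.support, (1 : ℝ) := by simp
      rw [e5, ← Finset.sum_add_distrib]
      exact Finset.sum_congr rfl fun k _ => by ring
    rw [this, h2, ← e3, h1, e1, e2]
    have : (D.support.card : ℝ) ≤ R.support.card := by exact_mod_cast hc
    linarith
  intro k
  by_cases hk : k ∈ D.support
  · right
    have h5 := Finset.single_le_sum (f := fun k => (D.coeff k - 1) ^ 2) (fun i _ => sq_nonneg _) hk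
    have h6 : (D.coeff k - 1) ^ 2 ≤ 0 := h5.trans e4
    nlinarith [sq_nonneg (D.coeff k - 1)]
  · left
    exact notMem_support_iff.mp hk

lemma mirror_sum_sq {A B : ℝ[X]} (hA : A ≠ 0) (hB : B ≠ 0) :
    ∑ k ∈ (A.mirror * B).support, (A.mirror * B).coeff k ^ 2 =
      ∑ k ∈ (A * B).support, (A * B).coeff k ^ 2 := by
  have hm : A.mirror ≠ 0 := fun h => hA (mirror_eq_zero.mp h)
  have h1 := coeff_mul_mirror (p := A.mirror * B)
  have h2 := coeff_mul_mirror (p := A * B)
  have e1 : (A.mirror * B) * (A.mirror * B).mirror = (A * B) * (A * B).mirror := by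
    rw [mirror_mul_of_domain, mirror_mul_of_domain, mirror_mirror]
    ring
  have e2 : (A.mirror * B).natDegree + (A.mirror * B).natTrailingDegree =
      (A * B).natDegree + (A * B).natTrailingDegree := by
    rw [natDegree_mul hm hB, natDegree_mul hA hB, natTrailingDegree_mul hm hB,
      natTrailingDegree_mul hA hB, mirror_natDegree, mirror_natTrailingDegree]
  rw [e1, e2, h2] at h1
  exact h1.symm

/-! ### the polynomials of a normalised pair -/

/-- `∑_{i ≤ M} a_i X^i` -/
noncomputable def poly (a : ℤ → ℝ) (M : ℕ) : ℝ[X] :=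
  ∑ i ∈ Finset.range (M + 1), monomial i (a i)

lemma poly_coeff {a : ℤ → ℝ} {M : ℕ} (ha : ∀ i : ℤ, (M : ℤ) < i → a i = 0) (k : ℕ) :
    (poly a M).coeff k = a k := by
  unfold poly
  rw [finsetSum_coeff]
  simp only [coeff_monomial]
  rw [Finset.sum_ite_eq' (Finset.range (M + 1)) k]
  split_ifs with h
  · rfl
  · rw [Finset.mem_range, not_lt] at h
    exact (ha k (by omega)).symm

section pair

variable {a b : ℤ → ℝ} {M N : ℕ}

lemma Norm.sum_eq (h : Norm a b M N) (k : ℕ) :
    (poly a M * poly b N).coeff k = ∑ i ∈ Finset.Icc (0 : ℤ) M, a i * b (k - i) := by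
  rw [coeff_mul, Finset.Nat.sum_antidiagonal_eq_sum_range_succ_mk]
  have e1 : ∑ i ∈ Finset.Icc (0 : ℤ) M, a i * b (k - i) =
      ∑ i ∈ Finset.range (M + 1), a (i : ℤ) * b ((k : ℤ) - (i : ℤ)) := by
    symm
    apply Finset.sum_bij (fun (i : ℕ) _ => (i : ℤ))
    · intro i hi
      rw [Finset.mem_range] at hi
      rw [Finset.mem_Icc]
      omega
    · intro i _ j _ hij
      exact_mod_cast hij
    · intro j hj
      rw [Finset.mem_Icc] at hj
      exact ⟨j.toNat, by rw [Finset.mem_range]; omega, by omega⟩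
    · intro i _; rfl
  have e2 : ∑ i ∈ Finset.range (M + 1), a (i : ℤ) * b ((k : ℤ) - (i : ℤ)) =
      ∑ i ∈ Finset.range (M + 1 + (k + 1)), a (i : ℤ) * b ((k : ℤ) - (i : ℤ)) := by
    apply Finset.sum_subset
    · intro i hi
      rw [Finset.mem_range] at hi ⊢
      omega
    · intro i _ hi
      rw [Finset.mem_range] at hi
      rw [h.a_big _ (by omega), zero_mul]
  have e3 : ∑ i ∈ Finset.range (k + 1), (poly a M).coeff i * (poly b N).coeff (k - i) =
      ∑ i ∈ Finset.range (M + 1 + (k + 1)), a (i : ℤ) * b ((k : ℤ) - (i : ℤ)) := by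
    trans ∑ i ∈ Finset.range (k + 1), a (i : ℤ) * b ((k : ℤ) - (i : ℤ))
    · refine Finset.sum_congr rfl fun i hi => ?_
      rw [Finset.mem_range] at hi
      rw [poly_coeff h.a_big, poly_coeff h.b_big, Nat.cast_sub (by omega)]
    · apply Finset.sum_subset
      · intro i hi
        rw [Finset.mem_range] at hi ⊢
        omega
      · intro i _ hi
        rw [Finset.mem_range] at hi
        rw [h.b_neg _ (by omega), mul_zero]
  rw [e1, e2]
  exact e3

lemma Norm.polyA_ne (h : Norm a b M N) : poly a M ≠ 0 := by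
  intro h0
  have := poly_coeff h.a_big 0
  rw [h0, coeff_zero, Nat.cast_zero, h.a0] at this
  exact zero_ne_one this

lemma Norm.polyB_ne (h : Norm a b M N) : poly b N ≠ 0 := by
  intro h0
  have := poly_coeff h.b_big 0
  rw [h0, coeff_zero, Nat.cast_zero, h.b0] at this
  exact zero_ne_one this

lemma Norm.natDeg (h : Norm a b M N) : (poly a M).natDegree = M := by
  apply le_antisymm
  · rw [natDegree_le_iff_coeff_eq_zero]
    intro k hk
    rw [poly_coeff h.a_big]
    exact h.a_big _ (by exact_mod_cast hk)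
  · apply le_natDegree_of_ne_zero
    rw [poly_coeff h.a_big]
    exact h.am

lemma Norm.natDegB (h : Norm a b M N) : (poly b N).natDegree = N := by
  apply le_antisymm
  · rw [natDegree_le_iff_coeff_eq_zero]
    intro k hk
    rw [poly_coeff h.b_big]
    exact h.b_big _ (by exact_mod_cast hk)
  · apply le_natDegree_of_ne_zero
    rw [poly_coeff h.b_big]
    exact h.bn

lemma Norm.monicA (h : Norm a b M N) : (poly a M).Monic := by
  unfold Monic leadingCoeff
  rw [h.natDeg, poly_coeff h.a_big]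
  exact h.am_eq

lemma Norm.monicB (h : Norm a b M N) : (poly b N).Monic := by
  unfold Monic leadingCoeff
  rw [h.natDegB, poly_coeff h.b_big]
  exact h.bn_eq

lemma Norm.R01 (h : Norm a b M N) (k : ℕ) :
    (poly a M * poly b N).coeff k = 0 ∨ (poly a M * poly b N).coeff k = 1 := by
  rw [h.sum_eq]
  exact h.conv k

/-- the product comes from an integral polynomial -/
lemma Norm.exists_int (h : Norm a b M N) : ∃ R : ℤ[X], R.Monic ∧
    R.map (algebraMap ℤ ℝ) = poly a M * poly b N := by
  classical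
  refine ⟨∑ k ∈ (poly a M * poly b N).support, X ^ k, ?_, ?_⟩
  swap
  · rw [Polynomial.map_sum]
    ext k
    rw [finsetSum_coeff]
    simp only [Polynomial.map_pow, map_X, coeff_X_pow]
    rw [Finset.sum_ite_eq]
    split_ifs with hk
    · exact ((h.R01 k).resolve_left (mem_support_iff.mp hk)).symm
    · exact (notMem_support_iff.mp hk).symm
  · have h1 : ((∑ k ∈ (poly a M * poly b N).support, X ^ k : ℤ[X]).map (algebraMap ℤ ℝ)).Monic := by
      have e : (∑ k ∈ (poly a M * poly b N).support, X ^ k : ℤ[X]).map (algebraMap ℤ ℝ) =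
          poly a M * poly b N := by
        rw [Polynomial.map_sum]
        ext k
        rw [finsetSum_coeff]
        simp only [Polynomial.map_pow, map_X, coeff_X_pow]
        rw [Finset.sum_ite_eq]
        split_ifs with hk
        · exact ((h.R01 k).resolve_left (mem_support_iff.mp hk)).symm
        · exact (notMem_support_iff.mp hk).symm
      rw [e]
      exact h.monicA.mul h.monicB
    exact monic_of_injective (algebraMap ℤ ℝ).injective_int h1

lemma isIntegral_coeff_of_dvd {R : ℤ[X]} {A : ℝ[X]} (hR : R.Monic) (hA : A.Monic)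
    (hd : A ∣ R.map (algebraMap ℤ ℝ)) (k : ℕ) : IsIntegral ℤ (A.coeff k) := by
  have h1 := integralClosure.mem_lifts_of_monic_of_dvd_map ℝ hR hA hd
  rw [lifts_iff_coeff_lifts] at h1
  obtain ⟨x, hx⟩ := h1 k
  rw [← hx]
  exact x.2

lemma Norm.intA (h : Norm a b M N) (k : ℕ) : IsIntegral ℤ ((poly a M).coeff k) := by
  obtain ⟨R, hR, hR2⟩ := h.exists_int
  exact isIntegral_coeff_of_dvd hR h.monicA (by rw [hR2]; exact dvd_mul_right _ _) k

lemma Norm.intB (h : Norm a b M N) (k : ℕ) : IsIntegral ℤ ((poly b N).coeff k) := by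
  obtain ⟨R, hR, hR2⟩ := h.exists_int
  exact isIntegral_coeff_of_dvd hR h.monicB (by rw [hR2]; exact dvd_mul_left _ _) k

lemma mirror_coeff (h : Norm a b M N) (k : ℕ) : (poly a M).mirror.coeff k = a (M - k) := by
  have h0 : (poly a M).natTrailingDegree = 0 := by
    rw [natTrailingDegree_eq_zero]
    right
    rw [poly_coeff h.a_big, Nat.cast_zero, h.a0]
    exact one_ne_zero
  rw [Polynomial.coeff_mirror, h0, h.natDeg, add_zero, poly_coeff h.a_big]
  by_cases hk : k ≤ M
  · rw [revAt_le hk, Nat.cast_sub hk]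
  · rw [revAt_eq_self_of_lt (by omega), h.a_big _ (by omega), h.a_neg _ (by omega)]

/-- if the difference polynomial has at most as many nonzero coefficients as the product,
all coefficients are `0` or `1` -/
lemma Norm.zero_one_of_card (h : Norm a b M N)
    (hc : ((poly a M).mirror * poly b N).support.card ≤ (poly a M * poly b N).support.card) :
    (∀ i, a i = 0 ∨ a i = 1) ∧ ∀ i, b i = 0 ∨ b i = 1 := by
  have hA := h.polyA_ne
  have hB := h.polyB_ne
  have h01 := zero_one_of_supp (D := (poly a M).mirror * poly b N) (R := poly a M * poly b N)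
    (by rw [eval_mul, eval_mul, mirror_eval_one]) (mirror_sum_sq hA hB) h.R01 hc
  by_contra hne
  obtain ⟨t, ht0, hat, hbt, -, -⟩ := h.first_fractional hne
  have hle : ((poly a M).mirror * poly b N).coeff M ≤ 1 := by
    rcases h01 M with h1 | h1 <;> rw [h1]
    exact zero_le_one
  have htM : t ≤ M := by
    by_contra hcon
    rw [h.a_big t (by omega)] at hat
    exact lt_irrefl _ hat
  obtain ⟨u, rfl⟩ := Int.eq_ofNat_of_zero_le ht0.le
  have huM : u ≤ M := by exact_mod_cast htM
  have hu0 : u ≠ 0 := by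
    rintro rfl
    exact lt_irrefl _ ht0
  rw [coeff_mul] at hle
  have hterm : ∀ x ∈ Finset.HasAntidiagonal.antidiagonal M,
      0 ≤ (poly a M).mirror.coeff x.1 * (poly b N).coeff x.2 := by
    intro x _
    rw [mirror_coeff h, poly_coeff h.b_big]
    exact mul_nonneg (h.a_nonneg _) (h.b_nonneg _)
  have hsub : ({(M, 0), (M - u, u)} : Finset (ℕ × ℕ)) ⊆ Finset.HasAntidiagonal.antidiagonal M := by
    intro x hx
    rw [Finset.mem_insert, Finset.mem_singleton] at hx
    rw [Finset.HasAntidiagonal.mem_antidiagonal]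
    rcases hx with rfl | rfl
    · simp
    · simp only
      omega
  have h2 := Finset.sum_le_sum_of_subset_of_nonneg hsub fun x hx _ => hterm x hx
  rw [Finset.sum_pair (by
    intro hcon
    rw [Prod.mk.injEq] at hcon
    exact hu0 hcon.2.symm)] at h2
  simp only [mirror_coeff h, poly_coeff h.b_big] at h2 hle
  rw [Nat.cast_sub huM] at h2
  have e1 : ((M : ℤ) - ((M : ℤ) - (u : ℤ))) = (u : ℤ) := by ring
  rw [sub_self, h.a0, Nat.cast_zero, h.b0, e1] at h2
  have h3 : 0 < a (u : ℤ) * b (u : ℤ) := mul_pos hat hbt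
  linarith

/-- totally real coefficients -/
lemma Norm.zero_one_of_real (h : Norm a b M N) (K : IntermediateField ℚ ℝ) [FiniteDimensional ℚ K]
    (hreal : ∀ (φ : K →ₐ[ℚ] ℂ) (x : K), (φ x).im = 0) (ha : ∀ i, a i ∈ K) :
    (∀ i, a i = 0 ∨ a i = 1) ∧ ∀ i, b i = 0 ∨ b i = 1 := by
  -- the coefficients of `b` are in `K`
  have hbn : ∀ k : ℕ, b k ∈ K := by
    intro k
    induction k using Nat.strong_induction_on with
    | _ k ih =>
      have h1 : ∑ i ∈ Finset.Icc (0 : ℤ) M, a i * b (k - i) ∈ K := by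
        rcases h.conv k with h1 | h1 <;> rw [h1]
        · exact zero_mem _
        · exact one_mem _
      have h2 : (0 : ℤ) ∈ Finset.Icc (0 : ℤ) M := Finset.mem_Icc.mpr ⟨le_rfl, by omega⟩
      rw [← Finset.add_sum_erase _ _ h2, sub_zero, h.a0, one_mul] at h1
      have h3 : ∑ i ∈ (Finset.Icc (0 : ℤ) M).erase 0, a i * b (k - i) ∈ K := by
        apply sum_mem
        intro i hi
        rw [Finset.mem_erase, Finset.mem_Icc] at hi
        apply mul_mem (ha i)
        by_cases hik : i ≤ k
        · obtain ⟨j, rfl⟩ := Int.eq_ofNat_of_zero_le hi.2.1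
          have hjk : j ≤ k := by exact_mod_cast hik
          have hj0 : j ≠ 0 := by
            rintro rfl
            exact hi.1 rfl
          have e : ((k - j : ℕ) : ℤ) = (k : ℤ) - (j : ℤ) := Nat.cast_sub hjk
          have h5 := ih (k - j) (by omega)
          rw [e] at h5
          exact h5
        · rw [h.b_neg _ (by omega)]
          exact zero_mem _
      have h4 := sub_mem h1 h3
      rwa [add_sub_cancel_right] at h4
  have hb : ∀ i, b i ∈ K := by
    intro i
    rcases lt_or_ge i 0 with hi | hi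
    · rw [h.b_neg i hi]
      exact zero_mem _
    · obtain ⟨k, rfl⟩ := Int.eq_ofNat_of_zero_le hi
      exact hbn k
  apply h.zero_one_of_card
  apply supp_card_le _ _ K
  · intro k
    rw [coeff_mul]
    apply sum_mem
    intro x _
    rw [mirror_coeff h, poly_coeff h.b_big]
    exact mul_mem (ha _) (hb _)
  · intro k
    rw [coeff_mul]
    apply IsIntegral.sum
    intro x _
    apply IsIntegral.mul _ (h.intB _)
    rw [Polynomial.coeff_mirror]
    exact h.intA _
  · exact hreal
  · rw [mirror_sum_sq h.polyA_ne h.polyB_ne]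
    have hR1 : ∀ k ∈ (poly a M * poly b N).support, (poly a M * poly b N).coeff k = 1 := fun k hk =>
      (h.R01 k).resolve_left (mem_support_iff.mp hk)
    rw [Finset.sum_congr rfl fun k hk => by rw [hR1 k hk]]
    simp

end pair

/-! ### back to probability mass functions -/

open Pointwise in
/-- the difference set criterion -/
lemma Pair.norm_card {S T : Finset ℤ} {p q : ℤ → ℝ} (h : Pair S T p q) {x z : ℤ}
    (hpx : p x ≠ 0) (hqz : q z ≠ 0) {M N : ℕ}
    (hn : Norm (fun i => p (x + i) / p x) (fun i => q (z + i) / q z) M N)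
    (hc : ((S.filter fun a => p a ≠ 0) - (T.filter fun b => q b ≠ 0)).card ≤
      ((S.filter fun a => p a ≠ 0) + (T.filter fun b => q b ≠ 0)).card) :
    ((poly (fun i => p (x + i) / p x) M).mirror * poly (fun i => q (z + i) / q z) N).support.card ≤
      (poly (fun i => p (x + i) / p x) M * poly (fun i => q (z + i) / q z) N).support.card := by
  classical
  set a : ℤ → ℝ := fun i => p (x + i) / p x with ha
  set b : ℤ → ℝ := fun i => q (z + i) / q z with hb
  have hap : ∀ i, a i ≠ 0 → x + i ∈ S.filter fun a => p a ≠ 0 := by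
    intro i hi
    have h1 : p (x + i) ≠ 0 := fun h0 => hi (by simp only [ha, h0, zero_div])
    rw [Finset.mem_filter]
    exact ⟨by by_contra hcon; exact h1 (h.pS _ hcon), h1⟩
  have hbq : ∀ i, b i ≠ 0 → z + i ∈ T.filter fun b => q b ≠ 0 := by
    intro i hi
    have h1 : q (z + i) ≠ 0 := fun h0 => hi (by simp only [hb, h0, zero_div])
    rw [Finset.mem_filter]
    exact ⟨by by_contra hcon; exact h1 (h.qT _ hcon), h1⟩
  -- the difference polynomial
  have h1 : ((poly a M).mirror * poly b N).support.card ≤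
      ((S.filter fun a => p a ≠ 0) - (T.filter fun b => q b ≠ 0)).card := by
    rw [← Finset.card_image_of_injective (f := fun k : ℕ => x - z + M - (k : ℤ))
      ((poly a M).mirror * poly b N).support (by
        intro k l hkl
        simp only at hkl
        omega)]
    apply Finset.card_le_card
    intro v hv
    rw [Finset.mem_image] at hv
    obtain ⟨k, hk, rfl⟩ := hv
    rw [mem_support_iff, coeff_mul] at hk
    obtain ⟨u, hu, hu2⟩ := Finset.exists_ne_zero_of_sum_ne_zero hk
    rw [Finset.HasAntidiagonal.mem_antidiagonal] at hu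
    rw [mirror_coeff hn, poly_coeff hn.b_big] at hu2
    have h3 := hap _ (left_ne_zero_of_mul hu2)
    have h4 := hbq _ (right_ne_zero_of_mul hu2)
    rw [Finset.mem_sub]
    refine ⟨_, h3, _, h4, ?_⟩
    have : (k : ℤ) = u.1 + u.2 := by exact_mod_cast hu.symm
    rw [this]
    ring
  have h2 : ((S.filter fun a => p a ≠ 0) + (T.filter fun b => q b ≠ 0)).card ≤
      (poly a M * poly b N).support.card := by
    refine le_trans (Finset.card_le_card (t := (poly a M * poly b N).support.image
      fun k : ℕ => x + z + (k : ℤ)) ?_) Finset.card_image_le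
    intro v hv
    rw [Finset.mem_add] at hv
    obtain ⟨s, hs, t, ht, rfl⟩ := hv
    rw [Finset.mem_filter] at hs ht
    have hs2 : a (s - x) ≠ 0 := by
      simp only [ha]
      rw [show x + (s - x) = s by ring]
      exact div_ne_zero hs.2 hpx
    have ht2 : b (t - z) ≠ 0 := by
      simp only [hb]
      rw [show z + (t - z) = t by ring]
      exact div_ne_zero ht.2 hqz
    have hs3 : 0 ≤ s - x := by
      by_contra hcon
      exact hs2 (hn.a_neg _ (by omega))
    have ht3 : 0 ≤ t - z := by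
      by_contra hcon
      exact ht2 (hn.b_neg _ (by omega))
    rw [Finset.mem_image]
    refine ⟨(s - x + (t - z)).toNat, ?_, by omega⟩
    rw [mem_support_iff, hn.sum_eq]
    have e : (((s - x + (t - z)).toNat : ℕ) : ℤ) = s - x + (t - z) := by omega
    rw [e]
    have h5 := hn.conv_pos (s - x + (t - z)) (s - x) (by
      rw [show s - x + (t - z) - (s - x) = t - z by ring]
      exact mul_ne_zero hs2 ht2)
    rw [h5]
    exact one_ne_zero
  exact h1.trans (hc.trans h2)

/-- the conjugates of every element of the field generated by totally real numbers are real -/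
lemma adjoin_real {G : Set ℝ} (hG : ∀ g ∈ G, ∀ ζ : ℂ, aeval ζ (minpoly ℚ g) = 0 → ζ.im = 0)
    (φ : IntermediateField.adjoin ℚ G →ₐ[ℚ] ℂ) (x : IntermediateField.adjoin ℚ G) : (φ x).im = 0 := by
  obtain ⟨x, hx⟩ := x
  induction hx using IntermediateField.adjoin_induction with
  | mem g hg =>
    apply hG g hg
    rw [aeval_algHom_apply]
    have : aeval (⟨g, IntermediateField.subset_adjoin ℚ G hg⟩ : IntermediateField.adjoin ℚ G)
        (minpoly ℚ g) = 0 := by
      apply Subtype.coe_injective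
      have h1 := minpoly.aeval ℚ g
      have h2 := aeval_algebraMap_apply ℝ
        (⟨g, IntermediateField.subset_adjoin ℚ G hg⟩ : IntermediateField.adjoin ℚ G) (minpoly ℚ g)
      have h3 : algebraMap (IntermediateField.adjoin ℚ G) ℝ
        ⟨g, IntermediateField.subset_adjoin ℚ G hg⟩ = g := rfl
      rw [h3, h1] at h2
      exact h2.symm
    rw [this, map_zero]
  | algebraMap r =>
    have h1 : φ ⟨algebraMap ℚ ℝ r, IntermediateField.algebraMap_mem _ r⟩ = algebraMap ℚ ℂ r :=
      φ.commutes r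
    rw [h1, eq_ratCast]
    exact Complex.ratCast_im r
  | add y z hy hz h1 h2 =>
    have : (⟨y + z, add_mem hy hz⟩ : IntermediateField.adjoin ℚ G) = ⟨y, hy⟩ + ⟨z, hz⟩ := rfl
    rw [this, map_add, Complex.add_im, h1, h2, add_zero]
  | inv y hy h1 =>
    have : (⟨y⁻¹, inv_mem hy⟩ : IntermediateField.adjoin ℚ G) = (⟨y, hy⟩)⁻¹ := rfl
    rw [this, map_inv₀, Complex.inv_im, h1, neg_zero, zero_div]
  | mul y z hy hz h1 h2 =>
    have : (⟨y * z, mul_mem hy hz⟩ : IntermediateField.adjoin ℚ G) = ⟨y, hy⟩ * ⟨z, hz⟩ := rfl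
    rw [this, map_mul, Complex.mul_im, h1, h2, mul_zero, zero_mul, add_zero]

lemma algebraic_of_real {g : ℝ} (hg : ∀ ζ : ℂ, aeval ζ (minpoly ℚ g) = 0 → ζ.im = 0) :
    IsIntegral ℚ g := by
  by_contra hcon
  have h1 := hg Complex.I (by rw [minpoly.eq_zero hcon, map_zero])
  rw [Complex.I_im] at h1
  exact one_ne_zero h1

end Pool.Agent.Lib.MP_997b73_pr
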