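import Pool.Agent.Lib.MP_997b73_pr.Core

/-!
Small interior mass: if the interior coefficients of `A` are small enough, then `A = 1 + x^m`.
-/

namespace Pool.Agent.Lib.MP_997b73_pr

/-- alternating sums with step `m` -/
def alt (g : ℤ → ℝ) (m : ℤ) (N : ℕ) (v : ℤ) : ℝ := ∑ j ∈ Finset.range N, (-1) ^ j * g (v - j * m)

lemma alt_neg (g : ℤ → ℝ) (hg : ∀ i, i < 0 → g i = 0) (m : ℤ) (hm : 0 < m) (N : ℕ) (v : ℤ) (hv : v < 0) :
    alt g m N v = 0 := by
  unfold alt
  refine Finset.sum_eq_zero fun j _ => ?_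
  rw [hg _ (by have : (0 : ℤ) ≤ j * m := by positivity
               omega), mul_zero]

lemma alt_add (g : ℤ → ℝ) (hg : ∀ i, i < 0 → g i = 0) (m : ℤ) (N : ℕ) (v : ℤ) (hv : v < N * m) :
    alt g m N v + alt g m N (v - m) = g v := by
  unfold alt
  rw [← Finset.sum_add_distrib]
  have : ∀ j ∈ Finset.range N, (-1 : ℝ) ^ j * g (v - j * m) + (-1) ^ j * g (v - m - j * m)
      = (fun j : ℕ => (-1 : ℝ) ^ j * g (v - j * m)) j - (fun j : ℕ => (-1 : ℝ) ^ j * g (v - j * m)) (j + 1) := by
    intro j _
    have e : v - m - j * m = v - ((j + 1 : ℕ) : ℤ) * m := by push_cast; ring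
    simp only [e]
    rw [pow_succ]
    ring
  rw [Finset.sum_congr rfl this, Finset.sum_range_sub']
  simp only [Nat.cast_zero, zero_mul, sub_zero, pow_zero, one_mul]
  rw [hg (v - N * m) (by omega), mul_zero, sub_zero]

namespace Norm

variable {a b : ℤ → ℝ} {m n : ℤ}

/-- coefficients of the product -/
noncomputable def s (a b : ℤ → ℝ) (m : ℤ) (k : ℤ) : ℝ := ∑ i ∈ Finset.Icc 0 m, a i * b (k - i)

lemma s_neg (h : Norm a b m n) (k : ℤ) (hk : k < 0) : s a b m k = 0 := by
  unfold s
  refine Finset.sum_eq_zero fun i hi => ?_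
  rw [Finset.mem_Icc] at hi
  rw [h.b_neg _ (by omega), mul_zero]

lemma sum_split (hm : 0 < m) (f : ℤ → ℝ) :
    ∑ i ∈ Finset.Icc 0 m, f i = f 0 + f m + ∑ i ∈ Finset.Ioo 0 m, f i := by
  have e : Finset.Icc 0 m = insert 0 (insert m (Finset.Ioo 0 m)) := by
    ext i
    simp only [Finset.mem_Icc, Finset.mem_insert, Finset.mem_Ioo]
    omega
  rw [e, Finset.sum_insert, Finset.sum_insert, add_assoc]
  · simp
  · simp only [Finset.mem_insert, Finset.mem_Ioo]
    omega

lemma sigma_eq (h : Norm a b m n) (hm : 0 < m) (N : ℕ) (v : ℤ) (hv : v < N * m) :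
    alt (s a b m) m N v = b v + ∑ i ∈ Finset.Ioo 0 m, a i * alt b m N (v - i) := by
  have e1 : alt (s a b m) m N v = ∑ i ∈ Finset.Icc 0 m, a i * alt b m N (v - i) := by
    unfold alt s
    simp only [Finset.mul_sum]
    rw [Finset.sum_comm]
    refine Finset.sum_congr rfl fun i _ => Finset.sum_congr rfl fun j _ => ?_
    rw [show v - j * m - i = v - i - j * m by ring]
    ring
  rw [e1, sum_split hm, h.a0, h.am_eq, one_mul, one_mul, sub_zero, alt_add b h.b_neg m N v hv]

lemma alt_bounds (h : Norm a b m n) (hm : 0 < m) (N : ℕ) (k : ℕ) : ∀ v : ℤ, 0 ≤ v → v ≤ k → v < N * m →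
    -(((v / m : ℤ) : ℝ) + 1) / 2 ≤ alt b m N v ∧ alt b m N v ≤ (((v / m : ℤ) : ℝ) + 2) / 2 := by
  induction k using Nat.strong_induction_on with
  | _ k ih =>
    intro v hv0 hvk hvN
    have h1 := alt_add b h.b_neg m N v hvN
    have b1 := h.b_nonneg v
    have b2 := h.b_le v
    rcases lt_or_ge v m with c1 | c1
    · rw [alt_neg b h.b_neg m hm N (v - m) (by omega)] at h1
      have hq : v / m = 0 := Int.ediv_eq_zero_of_lt hv0 c1
      rw [hq]
      constructor
      · push_cast; linarith
      · push_cast; linarith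
    · have h2 := alt_add b h.b_neg m N (v - m) (by omega)
      have b3 := h.b_nonneg (v - m)
      have b4 := h.b_le (v - m)
      rcases lt_or_ge v (2 * m) with c2 | c2
      · rw [alt_neg b h.b_neg m hm N (v - m - m) (by omega)] at h2
        have hq : v / m = 1 := by
          rw [Int.ediv_eq_iff_of_pos hm]
          constructor <;> linarith
        rw [hq]
        constructor
        · push_cast; linarith
        · push_cast; linarith
      · obtain ⟨h3, h4⟩ := ih (v - m - m).toNat (by omega) (v - m - m) (by omega) (by omega) (by omega)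
        have hq : (v - m - m) / m = v / m - 2 := by
          rw [show v - m - m = v + (-2) * m by ring, Int.add_mul_ediv_right _ _ hm.ne']
          ring
        rw [hq] at h3 h4
        push_cast at h3 h4
        constructor
        · linarith
        · linarith

lemma alt_abs (h : Norm a b m n) (hm : 0 < m) (N : ℕ) (k : ℕ) : ∀ v : ℤ, v ≤ k → v < N * m →
    |alt b m N v| ≤ (((n / m : ℤ) : ℝ) + 2) / 2 := by
  have hK : (0 : ℝ) ≤ ((n / m : ℤ) : ℝ) := by
    exact_mod_cast Int.ediv_nonneg h.n0 hm.le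
  induction k using Nat.strong_induction_on with
  | _ k ih =>
    intro v hvk hvN
    rcases lt_or_ge v 0 with c1 | c1
    · rw [alt_neg b h.b_neg m hm N v c1, abs_zero]
      positivity
    · rcases le_or_gt v n with c2 | c2
      · obtain ⟨h1, h2⟩ := h.alt_bounds hm N v.toNat v c1 (by omega) hvN
        have h3 : ((v / m : ℤ) : ℝ) ≤ ((n / m : ℤ) : ℝ) := by
          exact_mod_cast Int.ediv_le_ediv hm c2
        rw [abs_le]
        constructor <;> linarith
      · have h1 := alt_add b h.b_neg m N v hvN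
        rw [h.b_big v c2] at h1
        have h2 : alt b m N v = - alt b m N (v - m) := by linarith
        rw [h2, abs_neg]
        rcases lt_or_ge (v - m) 0 with c3 | c3
        · rw [alt_neg b h.b_neg m hm N _ c3, abs_zero]
          positivity
        · exact ih (v - m).toNat (by omega) (v - m) (by omega) (by omega)

/-- **small interior mass**: no interior coefficients at all -/
theorem interior_zero (h : Norm a b m n) (hm : 0 < m)
    (hsmall : (∑ i ∈ Finset.Ioo 0 m, a i) * (((n / m : ℤ) : ℝ) + 2) < 2) :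
    ∀ i, 0 < i → i < m → a i = 0 := by
  classical
  obtain ⟨N, hN⟩ : ∃ N : ℕ, n + m < N * m := by
    refine ⟨(n + m + 1).toNat, ?_⟩
    have h0 := h.n0
    rw [Int.toNat_of_nonneg (by omega)]
    nlinarith
  set K : ℝ := (((n / m : ℤ) : ℝ) + 2) / 2 with hK
  set ε : ℝ := ∑ i ∈ Finset.Ioo 0 m, a i with hε
  have hεK : ε * K < 1 := by rw [hK]; linarith
  set σ : ℤ → ℝ := alt (s a b m) m N with hσ
  have hs_neg : ∀ i, i < 0 → s a b m i = 0 := fun i hi => h.s_neg i hi
  have hσadd : ∀ v : ℤ, v < N * m → σ v + σ (v - m) = s a b m v := fun v hv =>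
    alt_add _ hs_neg m N v hv
  have hσneg : ∀ v : ℤ, v < 0 → σ v = 0 := fun v hv => alt_neg _ hs_neg m hm N v hv
  have hs01 : ∀ v, s a b m v = 0 ∨ s a b m v = 1 := h.conv
  -- closeness of `σ` and `b`
  have hclose : ∀ v : ℤ, v < N * m → |σ v - b v| < 1 := by
    intro v hv
    have e := h.sigma_eq hm N v hv
    rw [hσ, e, add_sub_cancel_left]
    calc |∑ i ∈ Finset.Ioo 0 m, a i * alt b m N (v - i)|
        ≤ ∑ i ∈ Finset.Ioo 0 m, |a i * alt b m N (v - i)| := Finset.abs_sum_le_sum_abs _ _
      _ ≤ ∑ i ∈ Finset.Ioo 0 m, a i * K := by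
          refine Finset.sum_le_sum fun i hi => ?_
          rw [Finset.mem_Ioo] at hi
          rw [abs_mul, abs_of_nonneg (h.a_nonneg i)]
          exact mul_le_mul_of_nonneg_left
            (h.alt_abs hm N (v - i).toNat (v - i) (by omega) (by omega)) (h.a_nonneg i)
      _ = ε * K := by rw [← Finset.sum_mul]
      _ < 1 := hεK
  -- `σ` takes the values `0` and `1` only
  have hσ01 : ∀ k : ℕ, ∀ v : ℤ, v ≤ k → v < N * m → σ v = 0 ∨ σ v = 1 := by
    intro k
    induction k using Nat.strong_induction_on with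
    | _ k ih =>
      intro v hvk hvN
      rcases lt_or_ge v 0 with c1 | c1
      · exact Or.inl (hσneg v c1)
      · have h1 := hσadd v hvN
        have hprev : σ (v - m) = 0 ∨ σ (v - m) = 1 := by
          rcases lt_or_ge (v - m) 0 with c3 | c3
          · exact Or.inl (hσneg _ c3)
          · exact ih (v - m).toNat (by omega) (v - m) (by omega) (by omega)
        rcases hs01 v with h2 | h2
        · rcases hprev with h3 | h3
          · left; rw [h2, h3] at h1; linarith
          · exfalso
            rw [h2, h3] at h1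
            have h4 := hclose v hvN
            have h5 : σ v = -1 := by linarith
            have hb := h.b_nonneg v
            rw [h5, abs_lt] at h4
            linarith [h4.1]
        · rcases hprev with h3 | h3
          · right; rw [h2, h3] at h1; linarith
          · left; rw [h2, h3] at h1; linarith
  have hσ01' : ∀ v : ℤ, v < N * m → σ v = 0 ∨ σ v = 1 := fun v hv => hσ01 v.toNat v (by omega) hv
  have hsupp : ∀ v : ℤ, v < N * m → σ v = 1 → b v ≠ 0 := by
    intro v hv h1 h2
    have h3 := hclose v hv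
    rw [h1, h2, sub_zero, abs_one] at h3
    exact lt_irrefl _ h3
  have hrange : ∀ v : ℤ, v < N * m → σ v = 1 → 0 ≤ v ∧ v ≤ n := by
    intro v hv h1
    constructor
    · by_contra hc
      rw [hσneg v (by omega)] at h1
      exact zero_ne_one h1
    · by_contra hc
      exact hsupp v hv h1 (h.b_big v (by omega))
  have hn0 := h.n0
  have hσ0 : σ 0 = 1 := by
    have h1 := hσadd 0 (by omega)
    rw [hσneg (0 - m) (by omega), add_zero] at h1
    rw [h1]
    exact h.conv_pos 0 0 (by rw [h.a0, sub_zero, h.b0]; norm_num)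
  intro i hi0 him
  by_contra hai
  set Λ : Finset ℤ := (Finset.Icc 0 n).filter fun v => σ v = 1 with hΛ
  have hmemΛ : ∀ v : ℤ, v < N * m → σ v = 1 → v ∈ Λ := by
    intro v hv h1
    rw [hΛ, Finset.mem_filter, Finset.mem_Icc]
    exact ⟨hrange v hv h1, h1⟩
  have hΛmem : ∀ v ∈ Λ, 0 ≤ v ∧ v ≤ n ∧ σ v = 1 := by
    intro v hv
    rw [hΛ, Finset.mem_filter, Finset.mem_Icc] at hv
    exact ⟨hv.1.1, hv.1.2, hv.2⟩
  set φ : ℤ → ℤ := fun u => if σ (u + i) = 1 then u + i else u + i - m with hφ
  have hφσ : ∀ u ∈ Λ, σ (φ u) = 1 ∧ φ u < N * m := by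
    intro u hu
    obtain ⟨h0, h1, h2⟩ := hΛmem u hu
    have hb := hsupp u (by omega) h2
    have h3 : s a b m (u + i) = 1 := h.conv_pos (u + i) i (by
      rw [add_sub_cancel_right]; exact mul_ne_zero hai hb)
    have h4 := hσadd (u + i) (by omega)
    rw [h3] at h4
    rw [hφ]
    by_cases h5 : σ (u + i) = 1
    · simp only [h5, if_true]
      exact ⟨trivial, by omega⟩
    · simp only [h5, if_false]
      have h6 : σ (u + i) = 0 := (hσ01' (u + i) (by omega)).resolve_right h5
      rw [h6, zero_add] at h4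
      exact ⟨h4, by omega⟩
  have hmaps : Set.MapsTo φ Λ Λ := by
    intro u hu
    obtain ⟨h1, h2⟩ := hφσ u hu
    exact hmemΛ _ h2 h1
  have hnotboth : ∀ u : ℤ, u ∈ Λ → u + m ∈ Λ → False := by
    intro u hu hum
    obtain ⟨h0, h1, h2⟩ := hΛmem u hu
    obtain ⟨h3, h4, h5⟩ := hΛmem _ hum
    have h6 := hσadd (u + m) (by omega)
    rw [add_sub_cancel_right, h2, h5] at h6
    have h7 := h.conv_le (u + m)
    change s a b m (u + m) ≤ 1 at h7
    linarith
  have hinj : Set.InjOn φ Λ := by
    intro u hu u' hu' huu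
    rw [hφ] at huu
    simp only at huu
    split_ifs at huu with c1 c2 c3
    · omega
    · exfalso
      have : u' = u + m := by omega
      rw [this] at hu'
      exact hnotboth u hu hu'
    · exfalso
      have : u = u' + m := by omega
      rw [this] at hu
      exact hnotboth u' hu' hu
    · omega
  have hsurj : Set.SurjOn φ Λ Λ := Finset.surjOn_of_injOn_of_card_le φ hmaps hinj le_rfl
  have h0Λ : (0 : ℤ) ∈ Λ := hmemΛ 0 (by omega) hσ0
  obtain ⟨u, hu, hu0⟩ := hsurj h0Λ
  obtain ⟨h1, h2, h3⟩ := hΛmem u hu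
  rw [hφ] at hu0
  simp only at hu0
  split_ifs at hu0 with c1
  · omega
  · have hum : u = m - i := by omega
    have hb := hsupp u (by omega) h3
    have h4 := h.at_m i (by omega)
    rw [← hum] at h4
    exact (mul_ne_zero hai hb) h4

end Norm

end Pool.Agent.Lib.MP_997b73_pr
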