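import Pool.Agent.Lib.MP_997b73_pr.Core

/-!
A monic real polynomial with constant term one whose zeros all have modulus one is palindromic.
-/

open Polynomial

namespace Pool.Agent.Lib.MP_997b73_pr

lemma reverse_lin (z : ℂ) : (X - C z : ℂ[X]).reverse = 1 - C z * X := by
  have h : (X - C z : ℂ[X]) = X + C (-z) := by rw [C_neg, sub_eq_add_neg]
  rw [h, reverse_add_C]
  have h1 : (X : ℂ[X]).reverse = 1 := by
    have := reverse_mul_X (1 : ℂ[X])
    rw [one_mul] at this
    rw [this, ← C_1, reverse_C]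
  rw [h1, natDegree_X, C_neg]
  ring

lemma reverse_prod (s : Multiset ℂ) (hs : ∀ r ∈ s, ‖r‖ = 1) :
    ∃ c : ℂ, ((s.map fun r => (X - C ((starRingEnd ℂ) r) : ℂ[X])).prod).reverse
      = C c * (s.map fun r => (X - C r : ℂ[X])).prod := by
  induction s using Multiset.induction_on with
  | empty =>
    refine ⟨1, ?_⟩
    simp only [Multiset.map_zero, Multiset.prod_zero, mul_one]
    rw [← C_1, reverse_C]
  | cons r s ih =>
    obtain ⟨c, hc⟩ := ih fun r hr => hs r (Multiset.mem_cons_of_mem hr)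
    have hr : ‖r‖ = 1 := hs r (Multiset.mem_cons_self r s)
    have hrr : (starRingEnd ℂ) r * r = 1 := by
      rw [← Complex.normSq_eq_conj_mul_self, Complex.normSq_eq_norm_sq, hr]
      norm_num
    refine ⟨-(starRingEnd ℂ) r * c, ?_⟩
    rw [Multiset.map_cons, Multiset.prod_cons, Multiset.map_cons, Multiset.prod_cons,
      reverse_mul_of_domain, hc, reverse_lin]
    have e : (1 : ℂ[X]) = C ((starRingEnd ℂ) r) * C r := by rw [← C_mul, hrr, C_1]
    have e2 : (1 : ℂ[X]) - C ((starRingEnd ℂ) r) * X = C (-(starRingEnd ℂ) r) * (X - C r) := by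
      rw [C_neg]
      conv_lhs => rw [e]
      ring
    rw [e2, C_mul]
    ring

/-- real monic polynomials with constant term one and unimodular zeros are palindromic -/
lemma palindromic (P : ℂ[X]) (hP : P.Monic) (h0 : P.coeff 0 = 1)
    (hreal : P.map (starRingEnd ℂ) = P) (hz : ∀ ζ : ℂ, P.eval ζ = 0 → ‖ζ‖ = 1) :
    P.reverse = P := by
  have hsplit : P.Splits := IsAlgClosed.splits P
  have hprod := hsplit.eq_prod_roots_of_monic hP
  have hroots : ∀ r ∈ P.roots, ‖r‖ = 1 := by
    intro r hr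
    exact hz r ((mem_roots hP.ne_zero).mp hr)
  obtain ⟨c, hc⟩ := reverse_prod P.roots hroots
  have hconj : P = (P.roots.map fun r => (X - C ((starRingEnd ℂ) r) : ℂ[X])).prod := by
    conv_lhs => rw [← hreal, hprod]
    rw [Polynomial.map_multiset_prod, Multiset.map_map]
    congr 1
    refine Multiset.map_congr rfl fun r _ => ?_
    simp
  rw [← hconj, ← hprod] at hc
  have hc1 : c = 1 := by
    have h1 := congrArg (fun Q : ℂ[X] => Q.coeff 0) hc
    simp only [coeff_zero_reverse, coeff_C_mul] at h1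
    rw [hP.leadingCoeff, h0, mul_one] at h1
    exact h1.symm
  rw [hc1, C_1, one_mul] at hc
  exact hc

namespace Norm

variable {a b : ℤ → ℝ} {m n : ℤ}

lemma symm_of_unimod (h : Norm a b m n)
    (hz : ∀ ζ : ℂ, ζ ≠ 0 → ∑ i ∈ Finset.Icc 0 m, (a i : ℂ) * ζ ^ i = 0 → ‖ζ‖ = 1) :
    ∀ i, a (m - i) = a i := by
  obtain ⟨M, rfl⟩ := Int.eq_ofNat_of_zero_le h.m0
  set P : ℂ[X] := ∑ i ∈ Finset.range (M + 1), C ((a i : ℝ) : ℂ) * X ^ i with hP
  have hcoeff : ∀ k : ℕ, P.coeff k = if k ≤ M then ((a k : ℝ) : ℂ) else 0 := by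
    intro k
    rw [hP, finsetSum_coeff]
    simp only [coeff_C_mul_X_pow]
    rw [Finset.sum_ite_eq]
    simp only [Finset.mem_range]
    by_cases hk : k ≤ M
    · rw [if_pos hk, if_pos (by omega)]
    · rw [if_neg hk, if_neg (by omega)]
  have hdeg : P.natDegree = M := by
    apply natDegree_eq_of_le_of_coeff_ne_zero
    · rw [natDegree_le_iff_coeff_eq_zero]
      intro k hk
      rw [hcoeff, if_neg (by omega)]
    · rw [hcoeff, if_pos le_rfl]
      have := h.am_eq
      rw [this]
      simp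
  have hmonic : P.Monic := by
    rw [Monic, leadingCoeff, hdeg, hcoeff, if_pos le_rfl, h.am_eq]
    simp
  have h0 : P.coeff 0 = 1 := by
    rw [hcoeff, if_pos (Nat.zero_le _)]
    have := h.a0
    rw [Nat.cast_zero, this]
    simp
  have hreal : P.map (starRingEnd ℂ) = P := by
    ext k
    rw [coeff_map, hcoeff]
    split_ifs
    · exact Complex.conj_ofReal _
    · simp
  have hsum : ∀ ζ : ℂ, P.eval ζ = ∑ i ∈ Finset.Icc 0 (M : ℤ), (a i : ℂ) * ζ ^ i := by
    intro ζ
    rw [hP, eval_finsetSum]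
    have e : Finset.Icc 0 (M : ℤ) = (Finset.range (M + 1)).map ⟨fun k : ℕ => (k : ℤ), Nat.cast_injective⟩ := by
      ext i
      simp only [Finset.mem_Icc, Finset.mem_map, Finset.mem_range, Function.Embedding.coeFn_mk]
      constructor
      · rintro ⟨h1, h2⟩
        exact ⟨i.toNat, by omega, by omega⟩
      · rintro ⟨k, h1, rfl⟩
        omega
    rw [e, Finset.sum_map]
    refine Finset.sum_congr rfl fun k _ => ?_
    simp
  have hpal := palindromic P hmonic h0 hreal (by
    intro ζ hζ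
    apply hz ζ
    · rintro rfl
      rw [← coeff_zero_eq_eval_zero, h0] at hζ
      exact one_ne_zero hζ
    · rw [← hsum]; exact hζ)
  intro i
  by_cases hi : 0 ≤ i ∧ i ≤ M
  · obtain ⟨k, rfl⟩ := Int.eq_ofNat_of_zero_le hi.1
    have hk : k ≤ M := by exact_mod_cast hi.2
    have h1 := congrArg (fun Q : ℂ[X] => Q.coeff k) hpal
    simp only [coeff_reverse] at h1
    rw [hdeg, revAt_le hk, hcoeff, hcoeff, if_pos hk, if_pos (Nat.sub_le _ _)] at h1
    have h2 : a ((M - k : ℕ) : ℤ) = a k := by exact_mod_cast h1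
    rw [← h2]
    congr 1
    push_cast [hk]
    ring
  · rcases not_and_or.mp hi with hi | hi
    · rw [h.a_neg i (by omega), h.a_big _ (by omega)]
    · rw [h.a_big i (by omega), h.a_neg _ (by omega)]

end Norm

end Pool.Agent.Lib.MP_997b73_pr
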